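import Pool.Agent.Run7.h367.SP.Path
import Pool.Agent.TH481.DenseMinor7

/-!
The finite subgraphs used for the clique minors.
-/

set_option autoImplicit false

namespace Pool.Agent.Run7.h367.SP

open SimpleGraph Finset Pool.Agent.W212.EFF TH481.DM Pool.Agent.Run7.h367.DP

lemma conn_im {V W : Type} {G : SimpleGraph V} {H : SimpleGraph W} (f : V → W)
    (hadj : ∀ u v, G.Adj u v → H.Adj (f u) (f v)) {B : Set V} (h : (G.induce B).Connected) :
    (H.induce (f '' B)).Connected := by
  obtain ⟨⟨a, ha⟩⟩ := h.nonempty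
  rw [connected_iff_exists_forall_reachable]
  refine ⟨⟨f a, a, ha, rfl⟩, ?_⟩
  rintro ⟨_, b, hb, rfl⟩
  let ψ : G.induce B →g H.induce (f '' B) :=
    ⟨fun x => ⟨f x.1, x.1, x.2, rfl⟩, fun {x y} h => hadj _ _ h⟩
  exact (h.preconnected ⟨a, ha⟩ ⟨b, hb⟩).map ψ

lemma cds_one {U : Type} {F : SimpleGraph U} (hF : F.Connected) : CDS F 1 :=
  ⟨fun _ => Set.univ, fun _ => conn_univ hF, fun i j h => absurd (Subsingleton.elim i j) h,
    fun _ _ => Or.inl trivial⟩

open Classical in
/-- sets joined to their complements are connected -/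
lemma crit_conn {U : Type} [Fintype U] (G : SimpleGraph U)
    (hcrit : ∀ v, Y (Ind G) ((univ : Finset U).erase v) < Y (Ind G) (univ : Finset U))
    (A : Finset U) (hA : A.Nonempty) (hj : ∀ x ∈ A, ∀ y, y ∉ A → G.Adj x y) :
    (G.induce (A : Set U)).Connected := by
  have hpos : 1 ≤ Y (Ind G) A := by
    by_contra hcon
    have h0 : Y (Ind G) A = 0 := by omega
    have h1 := Y_spec (ind_cpx G) A
    rw [h0, cov_iff] at h1
    obtain ⟨c, hc, _⟩ := h1
    obtain ⟨a, ha⟩ := hA
    exact absurd (hc a ha) (by omega)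
  have h1 := not_colorable_induce G A hpos
  rw [colorable_iff_forall_connectedComponent] at h1
  push Not at h1
  obtain ⟨c, hc⟩ := h1
  set K : Finset U := univ.filter (fun u => ∃ h : u ∈ (A : Set U), (⟨u, h⟩ : (A : Set U)) ∈ c.supp)
    with hK
  have hKmem : ∀ u, u ∈ K ↔ ∃ h : u ∈ (A : Set U), (⟨u, h⟩ : (A : Set U)) ∈ c.supp := by
    intro u; simp [hK]
  have hKY : Y (Ind G) A ≤ Y (Ind G) K := by
    by_contra hcon
    apply hc
    have h2 : Cov (Ind G) (Y (Ind G) A - 1) K :=
      (Y_spec (ind_cpx G) K).le (ind_cpx G) (by omega)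
    rw [cov_iff] at h2
    obtain ⟨f, f1, f2⟩ := h2
    refine ⟨SimpleGraph.Coloring.mk (fun v => (⟨f v.1.1, f1 v.1.1 ((hKmem _).2 ⟨v.1.2, v.2⟩)⟩ :
      Fin (Y (Ind G) A - 1))) ?_⟩
    intro u v huv h
    exact f2 _ ((hKmem _).2 ⟨u.1.2, u.2⟩) _ ((hKmem _).2 ⟨v.1.2, v.2⟩) huv (Fin.mk.inj h)
  by_cases hKA : ∀ a ∈ A, a ∈ K
  · obtain ⟨a, ha⟩ := hA
    have : Nonempty (A : Set U) := ⟨⟨a, ha⟩⟩
    refine ⟨fun x y => ?_⟩
    obtain ⟨_, hx⟩ := (hKmem _).1 (hKA x.1 x.2)
    obtain ⟨_, hy⟩ := (hKmem _).1 (hKA y.1 y.2)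
    exact ConnectedComponent.exact (hx.trans hy.symm)
  · push Not at hKA
    obtain ⟨v, hv, hvK⟩ := hKA
    exfalso
    have hKsub : ∀ x ∈ K, x ∈ A := fun x hx => by
      obtain ⟨h, _⟩ := (hKmem x).1 hx
      exact h
    have s1 := Y_split (ind_cpx G) (C := K ∪ Aᶜ) (B := K) subset_union_left (by
      intro x hx y hy
      rw [mem_sdiff, mem_union] at hy
      have hy' : y ∉ A := by
        rcases hy.1 with h | h
        · exact absurd h hy.2
        · exact mem_compl.1 h
      rw [ind_pair]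
      exact fun h => h (hj x (hKsub x hx) y hy'))
    have s2 : Y (Ind G) Aᶜ ≤ Y (Ind G) ((K ∪ Aᶜ) \ K) := by
      apply Y_mono (ind_cpx G)
      intro y hy
      rw [mem_sdiff, mem_union]
      exact ⟨Or.inr hy, fun h => (mem_compl.1 hy) (hKsub y h)⟩
    have s3 : Y (Ind G) (K ∪ Aᶜ) ≤ Y (Ind G) ((univ : Finset U).erase v) := by
      apply Y_mono (ind_cpx G)
      intro y hy
      refine mem_erase.2 ⟨?_, mem_univ _⟩
      rintro rfl
      rcases mem_union.1 hy with h | h
      · exact hvK h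
      · exact (mem_compl.1 h) hv
    have s4 : Y (Ind G) (univ : Finset U) ≤ Y (Ind G) A + Y (Ind G) Aᶜ := by
      have := Y_union_le (ind_cpx G) A Aᶜ
      rwa [Finset.union_compl] at this
    have := hcrit v
    omega

open Classical in
/-- the components of the complement of a critical graph -/
lemma cds_crit {U : Type} [Fintype U] (G : SimpleGraph U) {k : ℕ}
    (hcrit : ∀ v, Y (Ind G) ((univ : Finset U).erase v) < Y (Ind G) (univ : Finset U))
    (hk : k < Y (Ind G) (univ : Finset U)) :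
    ∃ m, CDS G m ∧ 2 * k + 2 ≤ Fintype.card U + m := by
  have hH : ∀ u v, Gᶜ.Adj u v ↔ u ≠ v ∧ ¬ G.Adj u v := fun u v => compl_adj G u v
  let rep : Gᶜ.ConnectedComponent → U := fun c => c.exists_rep.choose
  have hrep : ∀ c, Gᶜ.connectedComponentMk (rep c) = c := fun c => c.exists_rep.choose_spec
  have hmem : ∀ c x, x ∈ comp Gᶜ (rep c) ↔ Gᶜ.connectedComponentMk x = c := by
    intro c x
    simp only [comp, mem_filter, mem_univ, true_and]
    constructor
    · intro h
      rw [← hrep c]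
      exact (ConnectedComponent.sound h).symm
    · intro h
      exact ConnectedComponent.exact ((hrep c).trans h.symm)
  let m := Fintype.card Gᶜ.ConnectedComponent
  let e := (Fintype.equivFin Gᶜ.ConnectedComponent).symm
  have hself : ∀ v, v ∈ comp Gᶜ v := by
    intro v
    simp only [comp, mem_filter, mem_univ, true_and]
    exact Reachable.refl v
  have hC : CDS G m := by
    refine ⟨fun i => (comp Gᶜ (rep (e i)) : Set U), fun i => ?_, fun i j hij => ?_, fun i a => ?_⟩
    · exact crit_conn G hcrit _ ⟨_, hself _⟩ (comp_joined G Gᶜ hH _)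
    · rw [Set.disjoint_left]
      intro x hx hx'
      apply hij
      apply e.injective
      rw [← (hmem _ _).1 (mem_coe.1 hx), ← (hmem _ _).1 (mem_coe.1 hx')]
    · by_cases ha : a ∈ comp Gᶜ (rep (e i))
      · exact Or.inl ha
      · exact Or.inr ⟨rep (e i), hself _, (comp_joined G Gᶜ hH _ _ (hself _) a ha).symm⟩
  refine ⟨m, hC, ?_⟩
  have hun : (univ : Finset U) = (univ : Finset Gᶜ.ConnectedComponent).biUnion
      (fun c => comp Gᶜ (rep c)) := by
    ext x
    simp only [mem_univ, mem_biUnion, true_and, true_iff]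
    exact ⟨Gᶜ.connectedComponentMk x, (hmem _ _).2 rfl⟩
  have hcard : Fintype.card U = ∑ c : Gᶜ.ConnectedComponent, (comp Gᶜ (rep c)).card := by
    rw [← Finset.card_univ, hun, Finset.card_biUnion]
    intro c _ c' _ hcc
    show Disjoint (comp Gᶜ (rep c)) (comp Gᶜ (rep c'))
    rw [Finset.disjoint_left]
    intro x hx hx'
    exact hcc (((hmem _ _).1 hx).symm.trans ((hmem _ _).1 hx'))
  have hY : Y (Ind G) (univ : Finset U) ≤ ∑ c : Gᶜ.ConnectedComponent,
      Y (Ind G) (comp Gᶜ (rep c)) := by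
    have := Y_biUnion_le (ind_cpx G) (univ : Finset Gᶜ.ConnectedComponent)
      (fun c => comp Gᶜ (rep c))
    rwa [← hun] at this
  have hsum : ∑ c : Gᶜ.ConnectedComponent, 2 * Y (Ind G) (comp Gᶜ (rep c)) ≤
      ∑ c : Gᶜ.ConnectedComponent, ((comp Gᶜ (rep c)).card + 1) :=
    Finset.sum_le_sum (fun c _ => comp_gallai G Gᶜ hH hcrit (rep c))
  rw [Finset.sum_add_distrib, ← hcard, ← Finset.mul_sum, Finset.sum_const, Finset.card_univ,
    smul_eq_mul, mul_one] at hsum
  show 2 * k + 2 ≤ Fintype.card U + m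
  have : m = Fintype.card Gᶜ.ConnectedComponent := rfl
  omega

open Classical in
/-- critical graphs have large minimum degree -/
lemma crit_deg {U : Type} [Fintype U] (G : SimpleGraph U) {k : ℕ} (hG : ¬ G.Colorable k)
    (hcr : ∀ v, (G.induce (((univ : Finset U).erase v : Finset U) : Set U)).Colorable k) (v : U) :
    ∃ N : Finset U, k ≤ N.card ∧ ∀ x ∈ N, G.Adj v x := by
  refine ⟨univ.filter (fun x => G.Adj v x), ?_, fun x hx => (mem_filter.1 hx).2⟩
  by_contra hcon
  apply hG
  obtain ⟨c, c1, c2⟩ := (colorable_induce_iff G k _).1 (hcr v)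
  obtain ⟨m, hm, hm'⟩ : ∃ m ∈ range k, m ∉ (univ.filter (fun x => G.Adj v x)).image c := by
    apply Finset.exists_mem_notMem_of_card_lt_card
    rw [card_range]
    exact lt_of_le_of_lt card_image_le (not_le.1 hcon)
  rw [colorable_iff]
  refine ⟨Function.update c v m, fun x _ => ?_, fun x _ y _ hxy => ?_⟩
  · by_cases hx : x = v
    · subst hx
      rw [Function.update_self]
      exact mem_range.1 hm
    · rw [Function.update_of_ne hx]
      exact c1 x (mem_erase.2 ⟨hx, mem_univ _⟩)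
  · by_cases hx : x = v
    · subst hx
      rw [Function.update_self, Function.update_of_ne hxy.ne']
      intro h
      exact hm' (mem_image.2 ⟨y, mem_filter.2 ⟨mem_univ _, hxy⟩, h.symm⟩)
    · by_cases hy : y = v
      · subst hy
        rw [Function.update_self, Function.update_of_ne hx]
        intro h
        exact hm' (mem_image.2 ⟨x, mem_filter.2 ⟨mem_univ _, hxy.symm⟩, h⟩)
      · rw [Function.update_of_ne hx, Function.update_of_ne hy]
        exact c2 x (mem_erase.2 ⟨hx, mem_univ _⟩) y (mem_erase.2 ⟨hy, mem_univ _⟩) hxy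

end Pool.Agent.Run7.h367.SP
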