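import Pool.Agent.Run7.h367.SP.Ham

/-!
Subgraphs with Hamiltonian paths of graphs that are not `k`-colourable.
-/

set_option autoImplicit false

namespace Pool.Agent.Run7.h367.SP

open SimpleGraph Finset Pool.Agent.W212.EFF TH481.DM Pool.Agent.Run7.h367.DP

/-- a subgraph with `n` vertices, `m` disjoint connected dominating sets and a Hamiltonian path -/
def PackH {V : Type} (G : SimpleGraph V) (n m : ℕ) : Prop :=
  ∃ (F : SimpleGraph (Fin n)) (φ : Fin n → V), 0 < n ∧ F.Connected ∧ CDS F m ∧
    Function.Injective φ ∧ (∀ x y, F.Adj x y → G.Adj (φ x) (φ y)) ∧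
    ∀ (i : ℕ) (h : i + 1 < n), F.Adj ⟨i, by omega⟩ ⟨i + 1, h⟩

lemma PackH.of_hom {V V' : Type} {G : SimpleGraph V} {G' : SimpleGraph V'} {n m : ℕ} (f : V → V')
    (hf : Function.Injective f) (hadj : ∀ x y, G.Adj x y → G'.Adj (f x) (f y))
    (h : PackH G n m) : PackH G' n m := by
  obtain ⟨F, φ, h1, h2, h3, h4, h5, h6⟩ := h
  exact ⟨F, fun x => f (φ x), h1, h2, h3, fun x y h => h4 (hf h),
    fun x y h => hadj _ _ (h5 x y h), h6⟩

/-- a path -/
lemma packH_path {U : Type} {G : SimpleGraph U} {n : ℕ} (hn : 0 < n) (q : ℕ → U)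
    (q1 : ∀ i j, i < n → j < n → q i = q j → i = j)
    (q2 : ∀ i, i + 1 < n → G.Adj (q i) (q (i + 1))) : PackH G n 1 := by
  have hc : (G.comap (fun i : Fin n => q i.1)).Connected := by
    rw [connected_iff_exists_forall_reachable]
    refine ⟨⟨0, hn⟩, ?_⟩
    rintro ⟨i, hi⟩
    induction i with
    | zero => exact Reachable.refl _
    | succ i ih =>
      refine (ih (by omega)).trans (Adj.reachable ?_)
      exact q2 i hi
  exact ⟨G.comap (fun i : Fin n => q i.1), fun i => q i.1, hn, hc, cds_one hc,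
    fun i j h => Fin.ext (q1 _ _ i.2 j.2 h), fun x y h => h, fun i h => q2 i h⟩

/-- a spanning path -/
lemma packH_span {U : Type} [Fintype U] {G : SimpleGraph U} (hG : G.Connected) {m : ℕ}
    (hC : CDS G m) (q : ℕ → U)
    (q1 : ∀ i j, i < Fintype.card U → j < Fintype.card U → q i = q j → i = j)
    (q2 : ∀ i, i + 1 < Fintype.card U → G.Adj (q i) (q (i + 1))) :
    PackH G (Fintype.card U) m := by
  have hinj : Function.Injective (fun i : Fin (Fintype.card U) => q i.1) :=
    fun i j h => Fin.ext (q1 _ _ i.2 j.2 h)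
  let e : Fin (Fintype.card U) ≃ U := Equiv.ofBijective (fun i : Fin (Fintype.card U) => q i.1)
    ((Fintype.bijective_iff_injective_and_card _).2 ⟨hinj, Fintype.card_fin _⟩)
  have he : ∀ i, e i = q i.1 := fun i => rfl
  have hn : 0 < Fintype.card U := by
    obtain ⟨a⟩ := hG.nonempty
    exact Fintype.card_pos_iff.2 ⟨a⟩
  refine ⟨G.comap e, e, hn, (SimpleGraph.Iso.comap e G).connected_iff.2 hG, ?_, e.injective,
    fun x y h => h, fun i h => ?_⟩
  · obtain ⟨C, c1, c2, c3⟩ := hC
    have hadj : ∀ u v, G.Adj u v → (G.comap e).Adj (e.symm u) (e.symm v) := by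
      intro u v h
      rw [comap_adj, e.apply_symm_apply, e.apply_symm_apply]
      exact h
    refine ⟨fun i => e.symm '' C i, fun i => conn_im e.symm hadj (c1 i),
      fun i j hij => (Set.disjoint_image_iff e.symm.injective).2 (c2 i j hij), fun i a => ?_⟩
    rcases c3 i (e a) with h | ⟨c, hc, h⟩
    · exact Or.inl ⟨e a, h, e.symm_apply_apply a⟩
    · refine Or.inr ⟨e.symm c, ⟨c, hc, rfl⟩, ?_⟩
      have := hadj _ _ h
      rwa [e.symm_apply_apply] at this
  · rw [comap_adj, he, he]
    exact q2 i h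

open Classical in
lemma coreH_finite {k : ℕ} : ∀ (N : ℕ) (U : Type) [Fintype U] (G : SimpleGraph U),
    Fintype.card U = N → ¬ G.Colorable k →
    ∃ n m, n ≤ 2 * k + 1 ∧ 2 * k + 2 ≤ n + m ∧ PackH G n m := by
  intro N
  induction N with
  | zero =>
    intro U _ G h0 h
    have : IsEmpty U := Fintype.card_eq_zero_iff.1 h0
    exact absurd (Colorable.of_isEmpty k) h
  | succ N ih =>
    intro U _ G hc hG
    by_cases hcr : ∀ v, (G.induce (((univ : Finset U).erase v : Finset U) : Set U)).Colorable k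
    · have hk := lt_Y_univ G k hG
      have hcrit : ∀ v, Y (Ind G) ((univ : Finset U).erase v) < Y (Ind G) (univ : Finset U) := by
        intro v
        have h1 := (colorable_induce_iff G k _).1 (hcr v)
        rw [← cov_iff] at h1
        exact lt_of_le_of_lt (Y_le h1) hk
      have hne : (univ : Finset U).Nonempty := by
        rw [← Finset.card_pos, Finset.card_univ, hc]
        omega
      have h1 := crit_conn G hcrit univ hne (fun x _ y hy => absurd (mem_univ y) hy)
      rw [coe_univ] at h1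
      have hconn : G.Connected := (induceUnivIso G).connected_iff.1 h1
      have hdeg := crit_deg G hG hcr
      rcases Nat.lt_or_ge (2 * k) (N + 1) with h | h
      · obtain ⟨q, q1, q2⟩ := long_path hconn hdeg (2 * k + 1) (by omega) (le_refl _) (by omega)
        exact ⟨2 * k + 1, 1, le_refl _, by omega, packH_path (by omega) q q1 q2⟩
      · obtain ⟨q, q1, q2⟩ := long_path hconn hdeg (Fintype.card U) (by omega) (by omega)
          (le_refl _)
        obtain ⟨m, hC, hm⟩ := cds_crit G hcrit hk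
        exact ⟨Fintype.card U, m, by omega, hm, packH_span hconn hC q q1 q2⟩
    · push Not at hcr
      obtain ⟨v, hv⟩ := hcr
      obtain ⟨n, m, h1, h2, h3⟩ := ih _ _ (by simp [hc]) hv
      exact ⟨n, m, h1, h2, PackH.of_hom Subtype.val Subtype.val_injective (fun x y h => h) h3⟩

theorem coreH {V : Type} {G : SimpleGraph V} {k : ℕ} (h : ¬ G.Colorable k) :
    ∃ n m, n ≤ 2 * k + 1 ∧ 2 * k + 2 ≤ n + m ∧ PackH G n m := by
  obtain ⟨S, hS, h1⟩ := finite_sub h
  have := hS.fintype
  obtain ⟨n, m, h2, h3, h4⟩ := coreH_finite _ _ _ rfl h1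
  exact ⟨n, m, h2, h3, PackH.of_hom Subtype.val Subtype.val_injective (fun x y h => h) h4⟩

end Pool.Agent.Run7.h367.SP
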