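import Pool.Agent.Run7.h367.SP.Loc

/-!
Tree and path decompositions of strong products; schemes.
-/

set_option autoImplicit false

namespace Pool.Agent.Run7.h367.SP

open SimpleGraph Pool.Agent.Run7.h367.DP

/-- tree decompositions with `t`-colourable bags -/
def TreeCol {V : Type} (G : SimpleGraph V) (t : ℕ) : Prop :=
  ∃ n : ℕ, ∃ T : SimpleGraph (Fin n), T.IsTree ∧
    ∃ β : Fin n → Set V,
      (∀ u v, G.Adj u v → ∃ w, u ∈ β w ∧ v ∈ β w) ∧
      (∀ v, (T.induce {w | v ∈ β w}).Connected) ∧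
      (∀ w, (G.induce (β w)).Colorable t)

/-- path decompositions with `t`-colourable bags -/
def PathCol {V : Type} (G : SimpleGraph V) (t : ℕ) : Prop :=
  ∃ (m : ℕ) (B : Fin m → Set V),
    (∀ v : V, ∃ i, v ∈ B i) ∧
    (∀ u v : V, G.Adj u v → ∃ i, u ∈ B i ∧ v ∈ B i) ∧
    (∀ (v : V) (i j k : Fin m), i ≤ j → j ≤ k → v ∈ B i → v ∈ B k → v ∈ B j) ∧
    (∀ i, (G.induce (B i)).Colorable t)

/-- colourings of the sets `V × B` -/
lemma bag_col {c r t : ℕ} {V W : Type} {G : SimpleGraph V} {H : SimpleGraph W}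
    (hG : G.Colorable c) (hH : Rich H c r) (ht : ¬ CM (S G H) (t + 1)) (B : Set W)
    (hB : (H.induce B).Colorable (r + 2)) :
    ((S G H).induce {z : V × W | z.2 ∈ B}).Colorable t := by
  rcases split_chi hG with he | ⟨x, hx, hx1, hx2⟩
  · exact ⟨Coloring.mk (fun z => he.elim z.1.1) (fun {z} => he.elim z.1.1)⟩
  · have h1 := rich_minor hx2 hx hH
    have h2 : (r + 2) * (x + 1) ≤ t := by
      by_contra hcon
      exact ht (h1.mono (by omega))
    refine (col_sub (A := Set.univ) (B := B) (fun z hz => ⟨Set.mem_univ _, hz⟩)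
      (col_prod ?_ hB)).mono h2
    exact hx1.of_hom (Embedding.induce _).toHom

theorem tree_strong {c r t : ℕ} {V W : Type} {G : SimpleGraph V} {H : SimpleGraph W}
    (hG : G.Colorable c) (hH : Rich H c r) (hT : TreeCol H (r + 2))
    (ht : ¬ CM (S G H) (t + 1)) : TreeCol (S G H) t := by
  obtain ⟨n, T, h1, β, h2, h3, h4⟩ := hT
  refine ⟨n, T, h1, fun i => {z | z.2 ∈ β i}, ?_, fun v => h3 v.2,
    fun w => bag_col hG hH ht (β w) (h4 w)⟩
  rintro ⟨a, b⟩ ⟨a', b'⟩ ⟨-, -, h⟩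
  rcases h with h | h
  · obtain ⟨⟨i, hi⟩⟩ := (h3 b).nonempty
    have hb : b = b' := h
    exact ⟨i, hi, hb ▸ hi⟩
  · exact h2 _ _ h

theorem path_strong {c r t : ℕ} {V W : Type} {G : SimpleGraph V} {H : SimpleGraph W}
    (hG : G.Colorable c) (hH : Rich H c r) (hT : PathCol H (r + 2))
    (ht : ¬ CM (S G H) (t + 1)) : PathCol (S G H) t := by
  obtain ⟨n, B, h1, h2, h3, h4⟩ := hT
  refine ⟨n, fun i => {z | z.2 ∈ B i}, fun v => h1 v.2, ?_, fun v => h3 v.2,
    fun i => bag_col hG hH ht (B i) (h4 i)⟩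
  rintro ⟨a, b⟩ ⟨a', b'⟩ ⟨-, -, h⟩
  rcases h with h | h
  · obtain ⟨i, hi⟩ := h1 b
    have hb : b = b' := h
    exact ⟨i, hi, hb ▸ hi⟩
  · exact h2 _ _ h

/-- `G` contains a `k`-scheme -/
def Scheme {V : Type} (G : SimpleGraph V) (k : ℕ) : Prop :=
  ∃ (x : Fin k → V) (P : ∀ i j : Fin k, G.Walk (x i) (x j)), Function.Injective x ∧
    (∀ i j, (P i j).IsPath) ∧
    ∀ i j h l, i ≠ j → h ≠ l → i ≠ h → i ≠ l → j ≠ h → j ≠ l →
      ∀ u, u ∈ (P i j).support → u ∉ (P h l).support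

theorem path_in {V : Type} {G : SimpleGraph V} {A : Set V} (hA : (G.induce A).Connected) {a b : V}
    (ha : a ∈ A) (hb : b ∈ A) : ∃ q : G.Walk a b, q.IsPath ∧ ∀ u ∈ q.support, u ∈ A := by
  classical
  obtain ⟨p⟩ := hA.preconnected ⟨a, ha⟩ ⟨b, hb⟩
  refine ⟨p.toPath.1.map (SimpleGraph.Embedding.induce A).toHom, ?_, ?_⟩
  · exact SimpleGraph.Walk.IsPath.map
      (SimpleGraph.Embedding.induce (G := G) A).injective p.toPath.2
  · intro u hu
    have hu2 : u ∈ (SimpleGraph.Walk.map (SimpleGraph.Embedding.induce (G := G) A).toHom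
      p.toPath.1).support := hu
    rw [SimpleGraph.Walk.support_map, List.mem_map] at hu2
    obtain ⟨w, -, rfl⟩ := hu2
    exact w.2

theorem scheme_of_minor {V : Type} {G : SimpleGraph V} {p : ℕ} (h : CM G p) : Scheme G p := by
  obtain ⟨B, h1, h2, h3⟩ := h
  have hne : ∀ i, ∃ x, x ∈ B i := by
    intro i
    obtain ⟨x⟩ := (h1 i).nonempty
    exact ⟨x.1, x.2⟩
  choose x hx using hne
  have hex : ∀ i j, ∃ q : G.Walk (x i) (x j), q.IsPath ∧ ∀ u ∈ q.support, u ∈ B i ∪ B j := by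
    intro i j
    by_cases hij : i = j
    · subst hij
      refine ⟨SimpleGraph.Walk.nil, SimpleGraph.Walk.IsPath.nil, ?_⟩
      intro u hu
      rw [SimpleGraph.Walk.support_nil, List.mem_singleton] at hu
      exact Or.inl (hu ▸ hx i)
    · obtain ⟨a, ha, b, hb, hab⟩ := h3 i j hij
      exact path_in (SimpleGraph.connected_induce_union (h1 i).preconnected (h1 j).preconnected
        ha hb hab) (Or.inl (hx i)) (Or.inr (hx j))
  choose P hP hPB using hex
  refine ⟨x, P, ?_, hP, ?_⟩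
  · intro i j hij
    by_contra hne
    exact Set.disjoint_left.1 (h2 i j hne) (hx i) (hij ▸ hx j)
  · intro i j k l _ _ hik hil hjk hjl u hu hu'
    rcases hPB i j u hu with h4 | h4 <;> rcases hPB k l u hu' with h5 | h5
    · exact Set.disjoint_left.1 (h2 _ _ hik) h4 h5
    · exact Set.disjoint_left.1 (h2 _ _ hil) h4 h5
    · exact Set.disjoint_left.1 (h2 _ _ hjk) h4 h5
    · exact Set.disjoint_left.1 (h2 _ _ hjl) h4 h5

end Pool.Agent.Run7.h367.SP
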