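import Pool.Agent.Run7.h367.SP.CoreH

/-!
Strong products with graphs that contain a long path, a broom or a long cycle.
-/

set_option autoImplicit false

namespace Pool.Agent.Run7.h367.SP

open SimpleGraph Pool.Agent.Run7.h367.DP

/-- the strands and the extra branch sets -/
theorem good_minor {A W : Type} [Fintype A] {F : SimpleGraph A} {H : SimpleGraph W} {m : ℕ}
    (r : ℕ) (hr : r ≤ 1) (hF : F.Connected) (hC : CDS F m) {h0 h1 : W} (h01 : H.Adj h0 h1)
    (B : A → Set (A × W)) (hB : Fam (S F H) B)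
    (b4 : ∀ a, ∃ x ∈ B a, x.2 = h0) (b5 : ∀ a, ∀ x ∈ B a, x.2 ≠ h1)
    (R : Set W) (hR : r ≠ 0 → (H.induce R).Connected ∧ h1 ∉ R ∧ (∃ y ∈ R, H.Adj h1 y) ∧
      (∀ a, ∀ x ∈ B a, x.2 ∉ R) ∧ ∀ a, ∃ x ∈ B a, ∃ y ∈ R, H.Adj x.2 y) :
    CM (S F H) (Fintype.card A + m + r) := by
  obtain ⟨C, c1, c2, c3⟩ := hC
  have hCne : ∀ i, ∃ c, c ∈ C i := fun i => by
    obtain ⟨⟨c, hc⟩⟩ := (c1 i).nonempty
    exact ⟨c, hc⟩
  have f1 : Fam (S F H) (fun i : Fin m => C i ×ˢ {h1}) := by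
    refine ⟨fun i => conn_box (c1 i) (conn_point H h1), ?_, ?_⟩
    · intro i j hij
      rw [Set.disjoint_left]
      rintro x hx hx'
      exact (Set.disjoint_left.1 (c2 i j hij)) hx.1 hx'.1
    · intro i j hij
      obtain ⟨a, ha⟩ := hCne i
      rcases c3 j a with h | ⟨c, hc, hac⟩
      · exact absurd h ((Set.disjoint_left.1 (c2 i j hij)) ha)
      · exact ⟨(a, h1), ⟨ha, rfl⟩, (c, h1), ⟨hc, rfl⟩,
          fun h => hac.ne (congrArg Prod.fst h), Or.inr hac, Or.inl rfl⟩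
  have f2 : Fam (S F H) (fun _ : Fin r => (Set.univ : Set A) ×ˢ R) := by
    refine ⟨fun i => conn_box (conn_univ hF) (hR (by have := i.2; omega)).1, ?_, ?_⟩
    · intro i j hij
      exact absurd (Fin.ext (by have := i.2; have := j.2; omega)) hij
    · intro i j hij
      exact absurd (Fin.ext (by have := i.2; have := j.2; omega)) hij
  have f3 : Fam (S F H) (Sum.elim (fun i : Fin m => C i ×ˢ {h1})
      (fun _ : Fin r => (Set.univ : Set A) ×ˢ R)) := by
    refine f1.sum f2 ?_ ?_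
    · intro i j
      rw [Set.disjoint_left]
      rintro x hx hx'
      have h2 : x.2 = h1 := hx.2
      exact (hR (by have := j.2; omega)).2.1 (h2 ▸ hx'.2)
    · intro i j
      obtain ⟨c, hc⟩ := hCne i
      obtain ⟨y, hy, hy'⟩ := (hR (by have := j.2; omega)).2.2.1
      exact ⟨(c, h1), ⟨hc, rfl⟩, (c, y), ⟨trivial, hy⟩,
        fun h => hy'.ne (congrArg Prod.snd h), Or.inl rfl, Or.inr hy'⟩
  have f4 := hB.sum f3 (by
    rintro a (i | j)
    · rw [Set.disjoint_left]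
      intro x hx hx'
      exact b5 a x hx hx'.2
    · rw [Set.disjoint_left]
      intro x hx hx'
      exact (hR (by have := j.2; omega)).2.2.2.1 a x hx hx'.2) (by
    rintro a (i | j)
    · obtain ⟨⟨z, y⟩, hx, hy⟩ := b4 a
      have hy' : y = h0 := hy
      subst hy'
      rcases c3 i z with h | ⟨c, hc, hac⟩
      · exact ⟨(z, y), hx, (z, h1), ⟨h, rfl⟩, fun h => h01.ne (congrArg Prod.snd h),
          Or.inl rfl, Or.inr h01⟩
      · exact ⟨(z, y), hx, (c, h1), ⟨hc, rfl⟩, fun h => h01.ne (congrArg Prod.snd h),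
          Or.inr hac, Or.inr h01⟩
    · obtain ⟨x, hx, y, hy, hxy⟩ := (hR (by have := j.2; omega)).2.2.2.2 a
      exact ⟨x, hx, (x.1, y), ⟨trivial, hy⟩, fun h => hxy.ne (congrArg Prod.snd h),
        Or.inl rfl, Or.inr hxy⟩)
  have hcard : Fintype.card (A ⊕ (Fin m ⊕ Fin r)) = Fintype.card A + m + r := by
    simp only [Fintype.card_sum, Fintype.card_fin]
    omega
  rw [← hcard]
  exact CM.of_fintype _ f4.conn f4.disj f4.adj

/-- the strands along a path -/
theorem strands {A W : Type} {F : SimpleGraph A} {H : SimpleGraph W}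
    {T : ℕ} {w : ℕ → Equiv.Perm A}
    (w1 : ∀ t s, w (t + 1) s = w t s ∨ F.Adj (w t s) (w (t + 1) s))
    (w2 : ∀ s s', s ≠ s' → ∃ t ≤ T, F.Adj (w t s) (w t s'))
    (γ : ℕ → W) (g1 : ∀ i j, i ≤ T → j ≤ T → γ i = γ j → i = j)
    (g2 : ∀ i, i < T → H.Adj (γ i) (γ (i + 1))) :
    Fam (S F H) (fun a : A => (fun i => (w i a, γ i)) '' Set.Icc 0 T) := by
  refine ⟨?_, ?_, ?_⟩
  · intro a
    refine conn_seq _ 0 T (Nat.zero_le _) (fun i _ hi => Or.inr ?_)
    refine ⟨fun h => (g2 i hi).ne (congrArg Prod.snd h), ?_, Or.inr (g2 i hi)⟩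
    rcases w1 i a with h | h
    · exact Or.inl h.symm
    · exact Or.inr h
  · intro a b hab
    rw [Set.disjoint_left]
    rintro _ ⟨i, hi, rfl⟩ ⟨j, hj, h⟩
    have h1 : j = i := g1 j i hj.2 hi.2 (congrArg Prod.snd h)
    subst h1
    exact hab ((w j).injective (congrArg Prod.fst h)).symm
  · intro a b hab
    obtain ⟨t, ht, h⟩ := w2 a b hab
    exact ⟨_, ⟨t, ⟨Nat.zero_le _, ht⟩, rfl⟩, _, ⟨t, ⟨Nat.zero_le _, ht⟩, rfl⟩,
      fun h' => h.ne (congrArg Prod.fst h'), Or.inr h, Or.inl rfl⟩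

/-- `n + m` branch sets along a path, `n + m + 1` along a cycle -/
theorem path_minor {A W : Type} [Fintype A] {F : SimpleGraph A} {H : SimpleGraph W}
    (hF : F.Connected) {m : ℕ} (hC : CDS F m) {T : ℕ} {w : ℕ → Equiv.Perm A}
    (w1 : ∀ t s, w (t + 1) s = w t s ∨ F.Adj (w t s) (w (t + 1) s))
    (w2 : ∀ s s', s ≠ s' → ∃ t ≤ T, F.Adj (w t s) (w t s'))
    (p : ℕ → W) (L : ℕ) (p1 : ∀ i j, i < L → j < L → p i = p j → i = j)
    (p2 : ∀ i, i + 1 < L → H.Adj (p i) (p (i + 1))) (r : ℕ) (hr : r ≤ 1)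
    (hL : T + 2 + r ≤ L) (hp : r ≠ 0 → H.Adj (p (L - 1)) (p 0)) :
    CM (S F H) (Fintype.card A + m + r) := by
  have hst := strands (F := F) (H := H) (T := T) (w := w) w1 w2 (fun i => p (i + 1))
    (fun i j hi hj h => by
      have := p1 (i + 1) (j + 1) (by omega) (by omega) h
      omega)
    (fun i hi => p2 (i + 1) (by omega))
  refine good_minor r hr hF hC (h0 := p 1) (h1 := p 0) (p2 0 (by omega)).symm _ hst ?_ ?_
    (p '' Set.Icc (T + 2) (L - 1)) ?_
  · intro a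
    exact ⟨_, ⟨0, ⟨le_refl _, Nat.zero_le _⟩, rfl⟩, rfl⟩
  · rintro a _ ⟨i, hi, rfl⟩ h
    have hi2 := hi.2
    have h2 : p (i + 1) = p 0 := h
    have := p1 (i + 1) 0 (by omega) (by omega) h2
    omega
  · intro h0
    refine ⟨conn_seq p _ _ (by omega) (fun i _ hi => Or.inr (p2 i (by omega))), ?_, ?_, ?_, ?_⟩
    · rintro ⟨i, hi, h⟩
      have hi1 := hi.1
      have hi2 := hi.2
      have := p1 i 0 (by omega) (by omega) h
      omega
    · exact ⟨p (L - 1), ⟨L - 1, ⟨by omega, le_refl _⟩, rfl⟩, (hp h0).symm⟩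
    · rintro a _ ⟨i, hi, rfl⟩ ⟨j, hj, h⟩
      have hi2 := hi.2
      have hj1 := hj.1
      have hj2 := hj.2
      have h2 : p j = p (i + 1) := h
      have := p1 j (i + 1) (by omega) (by omega) h2
      omega
    · intro a
      exact ⟨_, ⟨T, ⟨Nat.zero_le _, le_refl _⟩, rfl⟩, p (T + 2), ⟨T + 2, ⟨le_refl _, by omega⟩, rfl⟩,
        p2 (T + 1) (by omega)⟩

/-- `n + m` branch sets at a broom -/
theorem broom_minor {n : ℕ} {W : Type} {F : SimpleGraph (Fin n)} {H : SimpleGraph W}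
    (hF : F.Connected) {m : ℕ} (hC : CDS F m) (Q : Set W) (hQ : (H.induce Q).Connected)
    (ν : Fin (n + 1) → W) (n1 : Function.Injective ν)
    (n2 : ∀ i, ν i ∉ Q ∧ ∃ q ∈ Q, H.Adj q (ν i)) : CM (S F H) (n + m) := by
  have hst : Fam (S F H) (fun a : Fin n =>
      (({a} : Set (Fin n)) ×ˢ Q ∪ (Set.univ : Set (Fin n)) ×ˢ {ν a.castSucc} : Set (Fin n × W))) := by
    refine ⟨?_, ?_, ?_⟩
    · intro a
      obtain ⟨q, hq, hqν⟩ := (n2 a.castSucc).2
      refine connected_induce_union (v := (a, q)) (w := (a, ν a.castSucc))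
        (conn_box (conn_point F a) hQ).preconnected
        (conn_box (conn_univ hF) (conn_point H _)).preconnected ⟨rfl, hq⟩ ⟨trivial, rfl⟩ ?_
      exact ⟨fun h => hqν.ne (congrArg Prod.snd h), Or.inl rfl, Or.inr hqν⟩
    · intro a b hab
      rw [Set.disjoint_left]
      rintro ⟨x, z⟩ hx hx'
      rcases hx with ⟨h1, h2⟩ | ⟨_, h2⟩ <;> rcases hx' with ⟨h3, h4⟩ | ⟨_, h4⟩
      · have h1' : x = a := h1
        have h3' : x = b := h3
        exact hab (h1'.symm.trans h3')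
      · have h4' : z = ν b.castSucc := h4
        exact (n2 b.castSucc).1 (h4' ▸ h2)
      · have h2' : z = ν a.castSucc := h2
        exact (n2 a.castSucc).1 (h2' ▸ h4)
      · have h2' : z = ν a.castSucc := h2
        have h4' : z = ν b.castSucc := h4
        exact hab (Fin.castSucc_injective n (n1 (h2'.symm.trans h4')))
    · intro a b hab
      obtain ⟨q, hq, hqν⟩ := (n2 b.castSucc).2
      refine ⟨(a, q), Or.inl ⟨rfl, hq⟩, (a, ν b.castSucc), Or.inr ⟨trivial, rfl⟩, ?_, Or.inl rfl,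
        Or.inr hqν⟩
      exact fun h => hqν.ne (congrArg Prod.snd h)
  obtain ⟨q, hq, hqν⟩ := (n2 (Fin.last n)).2
  have := good_minor 0 (by omega) hF hC hqν _ hst
    (fun a => ⟨(a, q), Or.inl ⟨rfl, hq⟩, rfl⟩) (by
      rintro a ⟨x, z⟩ hx h
      have hz : z = ν (Fin.last n) := h
      rcases hx with ⟨_, h2⟩ | ⟨_, h2⟩
      · exact (n2 (Fin.last n)).1 (hz ▸ h2)
      · have h2' : z = ν a.castSucc := h2
        exact (Fin.castSucc_lt_last a).ne (n1 (h2'.symm.trans hz)))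
    ∅ (fun h => absurd rfl h)
  rwa [Fintype.card_fin] at this

lemma CM.of_factor {V V' W : Type} {G : SimpleGraph V} {G' : SimpleGraph V'} {H : SimpleGraph W}
    {m : ℕ} (φ : V → V') (h1 : Function.Injective φ) (h2 : ∀ x y, G.Adj x y → G'.Adj (φ x) (φ y))
    (h : CM (S G H) m) : CM (S G' H) m := by
  refine CM.of_hom (fun x : V × W => (φ x.1, x.2)) ?_ ?_ h
  · rintro ⟨a, b⟩ ⟨a', b'⟩ h
    simp only [Prod.mk.injEq] at h
    exact Prod.ext (h1 h.1) h.2
  · rintro ⟨a, b⟩ ⟨a', b'⟩ h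
    refine ⟨?_, h.2.1.imp (fun e => congrArg φ e) (h2 _ _), h.2.2⟩
    intro e
    simp only [Prod.mk.injEq] at e
    exact h.1 (Prod.ext (h1 e.1) e.2)

/-- paths with `2 k + 2` vertices -/
theorem dir_path {k : ℕ} {V W : Type} {G : SimpleGraph V} {H : SimpleGraph W}
    (hG : ¬ G.Colorable k) (p : ℕ → W)
    (p1 : ∀ i j, i < 2 * k + 2 → j < 2 * k + 2 → p i = p j → i = j)
    (p2 : ∀ i, i + 1 < 2 * k + 2 → H.Adj (p i) (p (i + 1))) : CM (S G H) (2 * k + 2) := by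
  obtain ⟨n, m, h1, h2, F, φ, f1, f2, f3, f4, f5, f6⟩ := coreH hG
  obtain ⟨w, w1, w2⟩ := ham_walk f1 f6
  have := path_minor f2 f3 w1 w2 p (2 * k + 2) p1 p2 0 (by omega) (by omega)
    (fun h => absurd rfl h)
  rw [Fintype.card_fin] at this
  exact (CM.of_factor φ f4 f5 this).mono (by omega)

/-- cycles with at least `2 k + 3` vertices -/
theorem dir_cycle {k L : ℕ} {V W : Type} {G : SimpleGraph V} {H : SimpleGraph W}
    (hG : ¬ G.Colorable k) (hL : 2 * k + 3 ≤ L) (p : ℕ → W)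
    (p1 : ∀ i j, i < L → j < L → p i = p j → i = j)
    (p2 : ∀ i, i + 1 < L → H.Adj (p i) (p (i + 1))) (p3 : H.Adj (p (L - 1)) (p 0)) :
    CM (S G H) (2 * k + 3) := by
  obtain ⟨n, m, h1, h2, F, φ, f1, f2, f3, f4, f5, f6⟩ := coreH hG
  obtain ⟨w, w1, w2⟩ := ham_walk f1 f6
  have := path_minor f2 f3 w1 w2 p L p1 p2 1 (le_refl _) (by omega) (fun _ => p3)
  rw [Fintype.card_fin] at this
  exact (CM.of_factor φ f4 f5 this).mono (by omega)

/-- connected sets with `2 k + 2` neighbours -/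
theorem dir_broom {k : ℕ} {V W : Type} {G : SimpleGraph V} {H : SimpleGraph W}
    (hG : ¬ G.Colorable k) (Q : Set W) (hQ : (H.induce Q).Connected)
    (ν : Fin (2 * k + 2) → W) (n1 : Function.Injective ν)
    (n2 : ∀ i, ν i ∉ Q ∧ ∃ q ∈ Q, H.Adj q (ν i)) : CM (S G H) (2 * k + 2) := by
  obtain ⟨n, m, h1, h2, F, φ, f1, f2, f3, f4, f5, f6⟩ := coreH hG
  have hle : n + 1 ≤ 2 * k + 2 := by omega
  have := broom_minor f2 f3 Q hQ (fun i => ν (Fin.castLE hle i))
    (fun i j h => Fin.castLE_injective hle (n1 h)) (fun i => n2 _)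
  exact (CM.of_factor φ f4 f5 this).mono (by omega)

/-- large connected graphs -/
theorem dir_large {k : ℕ} {V W : Type} {G : SimpleGraph V} {H : SimpleGraph W}
    (hG : ¬ G.Colorable k) (hH : H.Connected)
    (hf : ∃ f : Fin ((2 * k + 2) * (2 * k + 2)) → W, Function.Injective f) :
    CM (S G H) (2 * k + 2) := by
  rcases path_or_broom (by omega : 2 ≤ 2 * k + 2) hH hf with ⟨p, p1, p2⟩ | ⟨Q, ν, h1, h2, h3⟩
  · exact dir_path hG p p1 p2
  · exact dir_broom hG Q h1 ν h2 h3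

end Pool.Agent.Run7.h367.SP
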