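import Mathlib

/-!
Odd cycles, and multiple colourings of odd cycles.
-/

set_option autoImplicit false

namespace Pool.Agent.Run7.h367.SP

open SimpleGraph

variable {W : Type}

/-- a shortest odd closed walk is a cycle -/
theorem odd_cycle {H : SimpleGraph W} (h : ¬ H.Colorable 2) :
    ∃ (L : ℕ) (p : ℕ → W), Odd L ∧ (∀ i, i < L → H.Adj (p i) (p (i + 1))) ∧ p L = p 0 ∧
      ∀ i j, i < L → j < L → p i = p j → i = j := by
  classical
  have hex : ∃ (L : ℕ), ∃ (p : ℕ → W), Odd L ∧ (∀ i, i < L → H.Adj (p i) (p (i + 1))) ∧ p L = p 0 := by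
    rw [two_colorable_iff_forall_loop_even] at h
    push Not at h
    obtain ⟨u, w, hw⟩ := h
    refine ⟨w.length, w.getVert, Nat.not_even_iff_odd.1 hw, fun i hi => w.adj_getVert_succ hi, ?_⟩
    rw [w.getVert_length, w.getVert_zero]
  set L := Nat.find hex with hL
  obtain ⟨p, h1, h2, h3⟩ := Nat.find_spec hex
  rw [← hL] at h1 h2 h3
  refine ⟨L, p, h1, h2, h3, ?_⟩
  have key : ∀ i j, i < j → j < L → p i = p j → False := by
    intro i j hij hj hp
    rcases Nat.even_or_odd (j - i) with he | ho
    · -- the rest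
      have hlt : L - (j - i) < L := by omega
      refine Nat.find_min hex (m := L - (j - i)) hlt
        ⟨fun t => if t ≤ i then p t else p (t + (j - i)), ?_, ?_, ?_⟩
      · rcases h1 with ⟨a, ha⟩
        obtain ⟨b, hb⟩ := he
        exact ⟨a - b, by omega⟩
      · intro t ht
        by_cases h4 : t + 1 ≤ i
        · simp only [h4, if_true, show t ≤ i by omega]
          exact h2 t (by omega)
        · by_cases h5 : t ≤ i
          · simp only [h4, if_false, h5, if_true]
            have e : t = i := by omega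
            have e2 : t + 1 + (j - i) = j + 1 := by omega
            rw [e2, e, hp]
            exact h2 j hj
          · simp only [h4, if_false, h5]
            have e2 : t + 1 + (j - i) = t + (j - i) + 1 := by omega
            rw [e2]
            exact h2 _ (by omega)
      · have e1 : ¬ (L - (j - i) ≤ i) := by omega
        simp only [e1, if_false, Nat.zero_le, if_true]
        have e2 : L - (j - i) + (j - i) = L := by omega
        rw [e2, h3]
    · have hlt : j - i < L := by omega
      refine Nat.find_min hex (m := j - i) hlt ⟨fun t => p (i + t), ho, ?_, ?_⟩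
      · intro t ht
        exact h2 (i + t) (by omega)
      · show p (i + (j - i)) = p (i + 0)
        have e : i + (j - i) = j := by omega
        rw [e, Nat.add_zero, hp]
  intro i j hi hj hp
  rcases lt_trichotomy i j with h4 | h4 | h4
  · exact (key i j h4 hj hp).elim
  · exact h4
  · exact (key j i h4 hi hp.symm).elim

/-- an odd closed walk of a cycle is long -/
theorem odd_long {N L : ℕ} {H : SimpleGraph W} (φ : H →g cycleGraph (2 * N + 1)) (p : ℕ → W)
    (hL : Odd L) (h2 : ∀ i, i < L → H.Adj (p i) (p (i + 1))) (h3 : p L = p 0) :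
    2 * N + 1 ≤ L := by
  by_contra hcon
  push Not at hcon
  have step : ∀ i, i < L → ∃ e b : ℤ, (e = 1 ∨ e = -1) ∧
      ((φ (p (i + 1))).1 : ℤ) - ((φ (p i)).1 : ℤ) = e + b * (2 * N + 1) := by
    intro i hi
    have hadj := φ.map_adj (h2 i hi)
    rw [cycleGraph_adj'] at hadj
    rcases hadj with h | h
    · have h5 := Fin.intCast_val_sub_eq_sub_add_ite (φ (p i)) (φ (p (i + 1)))
      rw [h] at h5
      split_ifs at h5
      · exact ⟨-1, 0, Or.inr rfl, by push_cast at h5; linarith⟩
      · exact ⟨-1, 1, Or.inr rfl, by push_cast at h5; linarith⟩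
    · have h5 := Fin.intCast_val_sub_eq_sub_add_ite (φ (p (i + 1))) (φ (p i))
      rw [h] at h5
      split_ifs at h5
      · exact ⟨1, 0, Or.inl rfl, by push_cast at h5; linarith⟩
      · exact ⟨1, -1, Or.inl rfl, by push_cast at h5; linarith⟩
  have key : ∀ t : ℕ, t ≤ L → ∃ s a b : ℤ, -(t : ℤ) ≤ s ∧ s ≤ t ∧ s = t + 2 * a ∧
      ((φ (p t)).1 : ℤ) - ((φ (p 0)).1 : ℤ) = s + b * (2 * N + 1) := by
    intro t
    induction t with
    | zero => intro _; exact ⟨0, 0, 0, by simp, by simp, by simp, by simp⟩
    | succ t ih =>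
      intro ht
      obtain ⟨s, a, b, h4, h5, h6, h7⟩ := ih (by omega)
      obtain ⟨e, b', he, h8⟩ := step t (by omega)
      rcases he with rfl | rfl
      · exact ⟨s + 1, a, b + b', by push_cast; linarith, by push_cast; linarith,
          by push_cast; linarith, by linarith⟩
      · exact ⟨s - 1, a - 1, b + b', by push_cast; linarith, by push_cast; linarith,
          by push_cast; linarith, by linarith⟩
  obtain ⟨s, a, b, h4, h5, h6, h7⟩ := key L (le_refl _)
  rw [h3, sub_self] at h7
  obtain ⟨d, hd⟩ := hL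
  have h8 : s = -b * (2 * N + 1) := by linarith
  have h9 : b = 0 := by
    by_contra hb
    have h10 : (L : ℤ) < 2 * N + 1 := by exact_mod_cast hcon
    rcases lt_or_gt_of_ne hb with hb | hb
    · have : (2 * N + 1 : ℤ) ≤ -b * (2 * N + 1) := by nlinarith
      linarith
    · have : (2 * N + 1 : ℤ) ≤ b * (2 * N + 1) := by nlinarith
      linarith
  subst h9
  have h10 : (L : ℤ) + 2 * a = 0 := by linarith
  omega

/-- the positions of the intervals of colours along an odd cycle -/
def pos (a q j : ℕ) : ℕ := j * (a * q) / (2 * a + 1)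

lemma pos_step {a q x : ℕ} (h : (2 * a + 1) * x ≤ a * q) (j : ℕ) :
    ∃ e, x ≤ e ∧ e + x ≤ q ∧ pos a q (j + 1) = pos a q j + e := by
  have hxq : x ≤ q := by
    have h1 : (2 * a + 1) * x ≤ (2 * a + 1) * q := h.trans (Nat.mul_le_mul_right _ (by omega))
    exact Nat.le_of_mul_le_mul_left h1 (by omega)
  obtain ⟨r, rfl⟩ := Nat.exists_eq_add_of_le hxq
  have hr : (a + 1) * x ≤ a * r := by nlinarith
  have h2 : a * (x + r) ≤ (2 * a + 1) * r := by nlinarith
  have lo : pos a (x + r) j + x ≤ pos a (x + r) (j + 1) := by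
    unfold pos
    rw [← Nat.add_mul_div_left _ x (by omega : 0 < 2 * a + 1)]
    apply Nat.div_le_div_right
    nlinarith
  have hi : pos a (x + r) (j + 1) ≤ pos a (x + r) j + r := by
    unfold pos
    rw [← Nat.add_mul_div_left _ r (by omega : 0 < 2 * a + 1)]
    apply Nat.div_le_div_right
    nlinarith
  exact ⟨pos a (x + r) (j + 1) - pos a (x + r) j, by omega, by omega, by omega⟩

lemma ne_of_pos {a q x j j' i i' : ℕ} (h : (2 * a + 1) * x ≤ a * q) (hi : i < x) (hi' : i' < x)
    (hj : j' = j + 1 ∨ (j = 2 * a ∧ j' = 0)) :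
    (pos a q j + i) % q ≠ (pos a q j' + i') % q := by
  intro h1
  obtain ⟨e, e1, e2, e3⟩ := pos_step h j
  have h2 : pos a q j + i ≡ pos a q j + (e + i') [MOD q] := by
    rcases hj with rfl | ⟨rfl, rfl⟩
    · rw [e3, Nat.add_assoc] at h1
      exact h1
    · have h4 : pos a q (2 * a + 1) = a * q := by
        unfold pos
        exact Nat.mul_div_cancel_left _ (by omega)
      have h5 : pos a q 0 = 0 := by
        unfold pos
        rw [Nat.zero_mul, Nat.zero_div]
      rw [h5, Nat.zero_add] at h1
      rw [← Nat.add_assoc, ← e3, h4]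
      have h6 : a * q + i' ≡ i' [MOD q] := by
        show (a * q + i') % q = i' % q
        rw [Nat.add_comm, Nat.add_mul_mod_self_right]
      exact Nat.ModEq.trans h1 h6.symm
  have h3 : i ≡ e + i' [MOD q] := Nat.ModEq.add_left_cancel' _ h2
  have h4 : i = e + i' := Nat.ModEq.eq_of_lt_of_lt h3 (by omega) (by omega)
  omega

end Pool.Agent.Run7.h367.SP
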