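import Pool.Agent.Run7.h367.SP.Path

/-!
Short walks of permutations in which all pairs touch; large connected graphs.
-/

set_option autoImplicit false

namespace Pool.Agent.Run7.h367.SP

open SimpleGraph

section Walk

variable {A : Type} [Fintype A] [DecidableEq A]

lemma cay_adj {F : SimpleGraph A} {a b : A} (h : F.Adj a b) (σ : Equiv.Perm A) :
    (Cay F).Adj σ (Equiv.swap a b * σ) := by
  rw [Cay, SimpleGraph.fromRel_adj]
  refine ⟨?_, Or.inl ⟨a, b, h, rfl⟩⟩
  intro h1
  have h2 : Equiv.swap a b = 1 := by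
    have h3 : σ * σ⁻¹ = Equiv.swap a b * σ * σ⁻¹ := by rw [← h1]
    rw [mul_assoc, mul_inv_cancel, mul_one] at h3
    exact h3.symm
  have h3 : Equiv.swap a b a = a := by rw [h2]; rfl
  rw [Equiv.swap_apply_left] at h3
  exact h.ne h3.symm

/-- two strands can be made adjacent -/
lemma touch_aux {F : SimpleGraph A} {s s' : A} (hs : s ≠ s') : ∀ (l : ℕ) (σ : Equiv.Perm A)
    (p : F.Walk (σ s) (σ s')), p.length ≤ l → ∃ (τ : Equiv.Perm A) (q : (Cay F).Walk σ τ),
      q.length ≤ l ∧ F.Adj (τ s) (τ s') := by
  intro l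
  induction l with
  | zero =>
    intro σ p hp
    have := Walk.eq_of_length_eq_zero (Nat.le_zero.1 hp)
    exact absurd (σ.injective this) hs
  | succ l ih =>
    intro σ p hp
    generalize hu : σ s = u at p
    generalize hv : σ s' = v at p
    cases p with
    | nil => exact absurd (σ.injective (hu.trans hv.symm)) hs
    | @cons _ c _ h q =>
      by_cases hc : c = v
      · refine ⟨σ, Walk.nil, by simp, ?_⟩
        rw [hu, hv, ← hc]
        exact h
      · have e1 : (Equiv.swap u c * σ) s = c := by
          rw [Equiv.Perm.mul_apply, hu, Equiv.swap_apply_left]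
        have e2 : (Equiv.swap u c * σ) s' = v := by
          rw [Equiv.Perm.mul_apply, hv]
          refine Equiv.swap_apply_of_ne_of_ne ?_ (Ne.symm hc)
          rintro rfl
          exact hs (σ.injective (hu.trans hv.symm))
        have hq : q.length ≤ l := by
          rw [Walk.length_cons] at hp
          omega
        obtain ⟨τ, r, hr, hτ⟩ := ih (Equiv.swap u c * σ) (q.copy e1.symm e2.symm) (by
          rw [Walk.length_copy]; exact hq)
        refine ⟨τ, Walk.cons (cay_adj h σ) r, ?_, hτ⟩
        rw [Walk.length_cons]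
        omega

lemma touch {F : SimpleGraph A} (hF : F.Connected) {s s' : A} (hs : s ≠ s') (σ : Equiv.Perm A) :
    ∃ (τ : Equiv.Perm A) (q : (Cay F).Walk σ τ), q.length ≤ Fintype.card A ∧
      F.Adj (τ s) (τ s') := by
  obtain ⟨p⟩ := hF.preconnected (σ s) (σ s')
  exact touch_aux hs _ σ p.bypass (p.bypass_isPath.length_lt.le)

/-- all the pairs of a set can be made adjacent -/
lemma touch_all {F : SimpleGraph A} (hF : F.Connected) (Q : Finset (A × A)) :
    ∃ (v : Equiv.Perm A) (p : (Cay F).Walk 1 v), p.length ≤ Fintype.card A * Q.card ∧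
      ∀ x ∈ Q, x.1 ≠ x.2 → ∃ τ ∈ p.support, F.Adj (τ x.1) (τ x.2) := by
  induction Q using Finset.induction_on with
  | empty => exact ⟨1, Walk.nil, by simp, fun x hx => absurd hx (Finset.notMem_empty x)⟩
  | insert a Q ha ih =>
    obtain ⟨v, p, hp, hp'⟩ := ih
    by_cases hne : a.1 = a.2
    · refine ⟨v, p, ?_, ?_⟩
      · rw [Finset.card_insert_of_notMem ha]
        exact hp.trans (Nat.mul_le_mul_left _ (Nat.le_succ _))
      · intro x hx hx'
        rcases Finset.mem_insert.1 hx with rfl | hx
        · exact absurd hne hx'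
        · exact hp' x hx hx'
    · obtain ⟨τ, q, hq, hτ⟩ := touch hF hne v
      refine ⟨τ, p.append q, ?_, ?_⟩
      · rw [Walk.length_append, Finset.card_insert_of_notMem ha, Nat.mul_succ]
        omega
      · intro x hx hx'
        rcases Finset.mem_insert.1 hx with rfl | hx
        · exact ⟨τ, (Walk.mem_support_append_iff _ _).2 (Or.inr q.end_mem_support), hτ⟩
        · obtain ⟨τ', h1, h2⟩ := hp' x hx hx'
          exact ⟨τ', (Walk.mem_support_append_iff _ _).2 (Or.inl h1), h2⟩

/-- a walk of the strands -/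
lemma short_walk {F : SimpleGraph A} (hF : F.Connected) :
    ∃ (w : ℕ → Equiv.Perm A),
      (∀ t s, w (t + 1) s = w t s ∨ F.Adj (w t s) (w (t + 1) s)) ∧
      ∀ s s', s ≠ s' → ∃ t ≤ Fintype.card A ^ 3, F.Adj (w t s) (w t s') := by
  obtain ⟨v, p, hp, hp'⟩ := touch_all hF Finset.univ
  refine ⟨p.getVert, ?_, ?_⟩
  · intro t s
    by_cases ht : t < p.length
    · exact cay_move (p.adj_getVert_succ ht) s
    · left
      rw [p.getVert_of_length_le (by omega), p.getVert_of_length_le (by omega)]
  · intro s s' h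
    obtain ⟨τ, h1, h2⟩ := hp' (s, s') (Finset.mem_univ _) h
    obtain ⟨t, ht, ht'⟩ := (Walk.mem_support_iff_exists_getVert).1 h1
    refine ⟨t, ?_, by rw [ht]; exact h2⟩
    rw [Finset.card_univ, Fintype.card_prod] at hp
    calc t ≤ p.length := ht'
      _ ≤ _ := hp
      _ = Fintype.card A ^ 3 := by ring

end Walk

/-- a path with `T` vertices, or a connected set with `D` neighbours -/
theorem path_or_broom {T D : ℕ} (hD : 2 ≤ D) {W : Type} {H : SimpleGraph W} (hH : H.Connected)
    (hf : ∃ f : Fin (T * D) → W, Function.Injective f) :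
    (∃ p : ℕ → W, (∀ i j, i < T → j < T → p i = p j → i = j) ∧
      ∀ i, i + 1 < T → H.Adj (p i) (p (i + 1))) ∨
    ∃ (Q : Set W) (ν : Fin D → W), (H.induce Q).Connected ∧ Function.Injective ν ∧
      ∀ i, ν i ∉ Q ∧ ∃ q ∈ Q, H.Adj q (ν i) := by
  classical
  obtain ⟨f, hf⟩ := hf
  obtain ⟨w0⟩ := hH.nonempty
  have dstep : ∀ u v, H.Adj u v → H.dist w0 v ≤ H.dist w0 u + 1 := by
    intro u v huv
    obtain ⟨p, hp⟩ := hH.exists_walk_length_eq_dist w0 u
    have := dist_le (p.concat huv)
    rw [Walk.length_concat, hp] at this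
    exact this
  have dback : ∀ v i, H.dist w0 v = i + 1 → ∃ u, H.dist w0 u = i ∧ H.Adj u v := by
    intro v i hv
    obtain ⟨p, hp⟩ := hH.exists_walk_length_eq_dist w0 v
    rw [hv] at hp
    have hadj := p.adj_getVert_succ (i := i) (by omega)
    have e : p.getVert (i + 1) = v := by rw [← hp, p.getVert_length]
    rw [e] at hadj
    refine ⟨p.getVert i, ?_, hadj⟩
    have h1 := dist_le (p.take i)
    rw [Walk.take_length] at h1
    have h2 := dstep _ _ hadj
    have h3 : min i p.length ≤ i := min_le_left _ _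
    omega
  by_cases hfar : ∃ w, T ≤ H.dist w0 w + 1
  · left
    obtain ⟨w, hw⟩ := hfar
    obtain ⟨q⟩ := hH.preconnected w0 w
    have hq : T ≤ q.bypass.length + 1 := by
      have := dist_le q.bypass
      omega
    refine ⟨q.bypass.getVert, ?_, ?_⟩
    · intro i j hi hj h
      exact q.bypass_isPath.getVert_injOn (show i ≤ _ by omega) (show j ≤ _ by omega) h
    · intro i hi
      exact q.bypass.adj_getVert_succ (by omega)
  · right
    push Not at hfar
    obtain ⟨i, hi⟩ : ∃ i : Fin T,
        D ≤ (Finset.univ.filter (fun j : Fin (T * D) =>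
          (⟨H.dist w0 (f j), by have := hfar (f j); omega⟩ : Fin T) = i)).card := by
      have hT : 0 < T := by have := hfar w0; omega
      have : Nonempty (Fin T) := ⟨⟨0, hT⟩⟩
      apply Fintype.exists_le_card_fiber_of_mul_le_card
      simp
    set E := Finset.univ.filter (fun j : Fin (T * D) =>
          (⟨H.dist w0 (f j), by have := hfar (f j); omega⟩ : Fin T) = i) with hE
    let ν : Fin D → W := fun j => f (E.orderEmbOfCardLe hi j)
    have n1 : Function.Injective ν := fun a b h =>
      (E.orderEmbOfCardLe hi).injective (hf h)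
    have n2 : ∀ j, H.dist w0 (ν j) = i.1 := fun j =>
      congrArg Fin.val (Finset.mem_filter.1 (E.orderEmbOfCardLe_mem hi j)).2
    have hi0 : 1 ≤ i.1 := by
      by_contra hcon
      have h0 : i.1 = 0 := by omega
      have h1 : ∀ j, w0 = ν j := fun j => (hH.dist_eq_zero_iff).1 ((n2 j).trans h0)
      have h2 := n1 ((h1 ⟨0, by omega⟩).symm.trans (h1 ⟨1, by omega⟩))
      exact absurd (Fin.mk.inj h2) (by omega)
    refine ⟨{w | H.dist w0 w < i.1}, ν, ?_, n1, ?_⟩
    · have hw0 : w0 ∈ {w | H.dist w0 w < i.1} := by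
        show H.dist w0 w0 < i.1
        rw [dist_self]
        exact hi0
      rw [connected_iff_exists_forall_reachable]
      refine ⟨⟨w0, hw0⟩, ?_⟩
      have key : ∀ n w, H.dist w0 w = n → ∀ hw : w ∈ {w | H.dist w0 w < i.1},
          (H.induce {w | H.dist w0 w < i.1}).Reachable ⟨w0, hw0⟩ ⟨w, hw⟩ := by
        intro n
        induction n with
        | zero =>
          intro w h hw
          have : w0 = w := (hH.dist_eq_zero_iff).1 h
          subst this
          exact Reachable.refl _
        | succ n ih =>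
          intro w h hw
          obtain ⟨u, hu, huw⟩ := dback w n h
          have hw' : H.dist w0 w < i.1 := hw
          have hum : u ∈ {w | H.dist w0 w < i.1} := by
            show H.dist w0 u < i.1
            omega
          exact (ih u hu hum).trans (Adj.reachable (by simpa using huw))
      rintro ⟨w, hw⟩
      exact key _ w rfl hw
    · intro j
      refine ⟨?_, ?_⟩
      · intro h
        have h' : H.dist w0 (ν j) < i.1 := h
        have := n2 j
        omega
      · obtain ⟨i', hi'⟩ : ∃ i', i.1 = i' + 1 := ⟨i.1 - 1, by omega⟩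
        obtain ⟨u, hu, huv⟩ := dback (ν j) i' ((n2 j).trans hi')
        refine ⟨u, ?_, huv⟩
        show H.dist w0 u < i.1
        omega

end Pool.Agent.Run7.h367.SP
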