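import Pool.Agent.Run7.h367.SP.Core
import Pool.Agent.Run7.h367.SP.Large
import Pool.Agent.Run7.h367.SP.Touch

/-!
Spanning families of connected sets; strands that visit given vertices.
-/

set_option autoImplicit false

namespace Pool.Agent.Run7.h367.SP

open SimpleGraph Pool.Agent.Run7.h367.DP

/-- reachability passes to larger sets -/
lemma reach_mono {W : Type} {H : SimpleGraph W} {X Y : Set W} (h : X ⊆ Y) {a b : W} {ha : a ∈ X}
    {hb : b ∈ X} (hr : (H.induce X).Reachable ⟨a, ha⟩ ⟨b, hb⟩) :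
    (H.induce Y).Reachable ⟨a, h ha⟩ ⟨b, h hb⟩ := by
  let φ : H.induce X →g H.induce Y := ⟨fun x => ⟨x.1, h x.2⟩, fun {x y} h => h⟩
  exact hr.map φ

/-- disjoint connected sets of a connected graph extend to a partition -/
theorem extend {W ι : Type} {H : SimpleGraph W} (hH : H.Connected) (i0 : ι) (R : ι → Set W)
    (r1 : ∀ i, (H.induce (R i)).Connected) (r2 : ∀ i j, i ≠ j → Disjoint (R i) (R j)) :
    ∃ f : W → ι, (∀ i, ∀ w ∈ R i, f w = i) ∧ ∀ i, (H.induce (f ⁻¹' {i})).Connected := by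
  classical
  have hne : ∀ i, ∃ x, x ∈ R i := fun i => by
    obtain ⟨⟨x, hx⟩⟩ := (r1 i).nonempty
    exact ⟨x, hx⟩
  have hex : ∀ w : W, ∃ n : ℕ, ∃ i, ∃ x ∈ R i, ∃ p : H.Walk w x, p.length = n := by
    intro w
    obtain ⟨x, hx⟩ := hne i0
    obtain ⟨p⟩ := hH.preconnected w x
    exact ⟨_, i0, x, hx, p, rfl⟩
  let d : W → ℕ := fun w => Nat.find (hex w)
  have dspec : ∀ w, ∃ i, ∃ x ∈ R i, ∃ p : H.Walk w x, p.length = d w :=
    fun w => Nat.find_spec (hex w)
  have dmin : ∀ w i x, x ∈ R i → ∀ p : H.Walk w x, d w ≤ p.length :=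
    fun w i x hx p => Nat.find_min' (hex w) ⟨i, x, hx, p, rfl⟩
  have hπ : ∀ w, ∃ w', d w ≠ 0 → H.Adj w w' ∧ d w = d w' + 1 := by
    intro w
    by_cases h0 : d w = 0
    · exact ⟨w, fun h => absurd h0 h⟩
    · obtain ⟨i, x, hx, p, hp⟩ := dspec w
      cases p with
      | nil => exact absurd hp.symm (by simpa using h0)
      | @cons _ w' _ h q =>
        refine ⟨w', fun _ => ⟨h, ?_⟩⟩
        have h1 := dmin w' i x hx q
        obtain ⟨i', x', hx', p', hp'⟩ := dspec w'
        have h2 := dmin w i' x' hx' (Walk.cons h p')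
        rw [Walk.length_cons] at hp h2
        omega
  choose π hπ using hπ
  have hidx : ∀ w, ∃ i, d w = 0 → w ∈ R i := by
    intro w
    by_cases h0 : d w = 0
    · obtain ⟨i, x, hx, p, hp⟩ := dspec w
      rw [h0] at hp
      have := Walk.eq_of_length_eq_zero hp
      exact ⟨i, fun _ => this ▸ hx⟩
    · exact ⟨i0, fun h => absurd h h0⟩
  choose idx hidx using hidx
  have fin0 : ∀ n w, d w = n → d (π^[n] w) = 0 := by
    intro n
    induction n with
    | zero => intro w h; exact h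
    | succ n ih =>
      intro w h
      rw [Function.iterate_succ_apply]
      apply ih
      have := (hπ w (by omega)).2
      omega
  let f : W → ι := fun w => idx (π^[d w] w)
  have fπ : ∀ w, d w ≠ 0 → f (π w) = f w := by
    intro w h
    have h1 := (hπ w h).2
    show idx (π^[d (π w)] (π w)) = idx (π^[d w] w)
    rw [h1, Function.iterate_succ_apply]
  have f0 : ∀ w, d w = 0 → w ∈ R (f w) := by
    intro w h
    show w ∈ R (idx (π^[d w] w))
    rw [h]
    exact hidx w h
  have fR : ∀ i, ∀ w ∈ R i, f w = i := by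
    intro i w hw
    have h0 : d w = 0 := by
      have := dmin w i w hw Walk.nil
      simpa using this
    by_contra hne
    exact (Set.disjoint_left.1 (r2 _ _ hne)) (f0 w h0) hw
  refine ⟨f, fR, fun i => ?_⟩
  obtain ⟨r, hr⟩ := hne i
  have hsub : R i ⊆ f ⁻¹' {i} := fun w hw => fR i w hw
  rw [connected_iff_exists_forall_reachable]
  refine ⟨⟨r, hsub hr⟩, ?_⟩
  have key : ∀ n w, d w = n → ∀ hw : w ∈ f ⁻¹' {i},
      (H.induce (f ⁻¹' {i})).Reachable ⟨r, hsub hr⟩ ⟨w, hw⟩ := by
    intro n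
    induction n with
    | zero =>
      intro w h hw
      have h1 : w ∈ R i := by
        have h2 := f0 w h
        have h3 : f w = i := hw
        rwa [h3] at h2
      exact reach_mono hsub ((r1 i).preconnected ⟨r, hr⟩ ⟨w, h1⟩)
    | succ n ih =>
      intro w h hw
      have h1 := hπ w (by omega)
      have h2 : π w ∈ f ⁻¹' {i} := by
        show f (π w) = i
        rw [fπ w (by omega)]
        exact hw
      exact (ih (π w) (by omega) h2).trans (Adj.reachable (by simpa using h1.1.symm))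
  rintro ⟨w, hw⟩
  exact key _ w rfl hw

/-- strands along a path, present everywhere -/
theorem cover_path {A W : Type} {F : SimpleGraph A} {H : SimpleGraph W} (hH : H.Connected)
    {T : ℕ} {w : ℕ → Equiv.Perm A}
    (w1 : ∀ t s, w (t + 1) s = w t s ∨ F.Adj (w t s) (w (t + 1) s))
    (w2 : ∀ s s', s ≠ s' → ∃ t ≤ T, F.Adj (w t s) (w t s'))
    (γ : ℕ → W) (g1 : ∀ i j, i ≤ T → j ≤ T → γ i = γ j → i = j)
    (g2 : ∀ i, i < T → H.Adj (γ i) (γ (i + 1))) :
    ∃ B : A → Set (A × W), Fam (S F H) B ∧ ∀ a y, ∃ x ∈ B a, x.2 = y := by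
  obtain ⟨f, f1, f2⟩ := extend hH (0 : Fin (T + 1)) (fun i => {γ i.1}) (fun i => conn_point H _)
    (fun i j hij => by
      rw [Set.disjoint_singleton]
      exact fun h => hij (Fin.ext (g1 i j (by have := i.2; omega) (by have := j.2; omega) h)))
  have hfγ : ∀ i (hi : i ≤ T), f (γ i) = ⟨i, by omega⟩ := fun i hi => f1 ⟨i, by omega⟩ _ rfl
  have hmem : ∀ a y, (w (f y).1 a, y) ∈ {x : A × W | x.1 = w (f x.2).1 a} := fun a y => rfl
  refine ⟨fun a => {x : A × W | x.1 = w (f x.2).1 a}, ⟨?_, ?_, ?_⟩, fun a y => ⟨_, hmem a y, rfl⟩⟩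
  · intro a
    have hγ : ∀ i, i ≤ T → (w i a, γ i) ∈ {x : A × W | x.1 = w (f x.2).1 a} := by
      intro i hi
      show w i a = w (f (γ i)).1 a
      rw [hfγ i hi]
    rw [connected_iff_exists_forall_reachable]
    refine ⟨⟨(w 0 a, γ 0), hγ 0 (Nat.zero_le _)⟩, ?_⟩
    have k1 : ∀ i (hi : i ≤ T), ((S F H).induce {x : A × W | x.1 = w (f x.2).1 a}).Reachable
        ⟨(w 0 a, γ 0), hγ 0 (Nat.zero_le _)⟩ ⟨(w i a, γ i), hγ i hi⟩ := by
      intro i
      induction i with
      | zero => intro _; exact Reachable.refl _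
      | succ i ih =>
        intro hi
        refine (ih (by omega)).trans (Adj.reachable ?_)
        show (S F H).Adj (w i a, γ i) (w (i + 1) a, γ (i + 1))
        refine ⟨fun h => (g2 i (by omega)).ne (congrArg Prod.snd h), ?_, Or.inr (g2 i (by omega))⟩
        rcases w1 i a with h | h
        · exact Or.inl h.symm
        · exact Or.inr h
    rintro ⟨⟨x, y⟩, hx⟩
    have hx' : x = w (f y).1 a := hx
    subst hx'
    have hi : (f y).1 ≤ T := by have := (f y).2; omega
    refine (k1 _ hi).trans ?_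
    have hγm : γ (f y).1 ∈ f ⁻¹' {f y} := hfγ _ hi
    let φ : H.induce (f ⁻¹' {f y}) →g (S F H).induce {x : A × W | x.1 = w (f x.2).1 a} :=
      ⟨fun z => ⟨(w (f y).1 a, z.1), by
        show w (f y).1 a = w (f z.1).1 a
        have : f z.1 = f y := z.2
        rw [this]⟩, fun {z z'} h =>
        ⟨fun h' => h.ne (Subtype.ext (congrArg Prod.snd h')), Or.inl rfl, Or.inr h⟩⟩
    exact ((f2 (f y)).preconnected ⟨γ (f y).1, hγm⟩ ⟨y, rfl⟩).map φ
  · intro a b hab
    rw [Set.disjoint_left]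
    intro x hx hx'
    have h1 : x.1 = w (f x.2).1 a := hx
    have h2 : x.1 = w (f x.2).1 b := hx'
    exact hab ((w (f x.2).1).injective (h1.symm.trans h2))
  · intro a b hab
    obtain ⟨t, ht, h⟩ := w2 a b hab
    refine ⟨(w t a, γ t), ?_, (w t b, γ t), ?_, fun h' => h.ne (congrArg Prod.fst h'), Or.inr h,
      Or.inl rfl⟩
    · show w t a = w (f (γ t)).1 a
      rw [hfγ t ht]
    · show w t b = w (f (γ t)).1 b
      rw [hfγ t ht]

/-- strands at a broom, present at given vertices -/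
theorem cover_broom {n s D : ℕ} {W : Type} {F : SimpleGraph (Fin n)} {H : SimpleGraph W}
    (hF : F.Connected) (hH : H.Connected) (Q0 : Set W) (hQ0 : (H.induce Q0).Connected)
    (ν : Fin D → W) (n1 : Function.Injective ν) (n2 : ∀ i, ν i ∉ Q0 ∧ ∃ q ∈ Q0, H.Adj q (ν i))
    (y : Fin s → W) (hD : n + s ≤ D) :
    ∃ B : Fin n → Set (Fin n × W), Fam (S F H) B ∧ ∀ a j, ∃ x ∈ B a, x.2 = y j := by
  classical
  obtain ⟨f, f1, f2⟩ := extend hH (none : Option (Fin D))
    (fun i => match i with | none => Q0 | some i => {ν i}) (by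
      rintro (_ | i)
      · exact hQ0
      · exact conn_point H _) (by
      rintro (_ | i) (_ | j) hij
      · exact absurd rfl hij
      · exact Set.disjoint_singleton_right.2 (n2 j).1
      · exact Set.disjoint_singleton_left.2 (n2 i).1
      · exact Set.disjoint_singleton.2 (fun h => hij (by rw [n1 h])))
  have fQ0 : ∀ q ∈ Q0, f q = none := fun q hq => f1 none q hq
  have fν : ∀ i, f (ν i) = some i := fun i => f1 (some i) (ν i) rfl
  -- the fibres without given vertices
  set E : Finset (Fin D) := Finset.univ.filter (fun i => ∀ j, f (y j) ≠ some i) with hE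
  have hEc : n ≤ E.card := by
    have h1 : (Finset.univ.filter (fun i : Fin D => ¬ ∀ j, f (y j) ≠ some i)).card ≤ s := by
      have h2 : ((Finset.univ.filter (fun i : Fin D => ¬ ∀ j, f (y j) ≠ some i)).image
          (fun i => some i)) ⊆ (Finset.univ : Finset (Fin s)).image (fun j => f (y j)) := by
        intro z hz
        obtain ⟨i, hi, rfl⟩ := Finset.mem_image.1 hz
        have hi' := (Finset.mem_filter.1 hi).2
        push Not at hi'
        obtain ⟨j, hj⟩ := hi'
        exact Finset.mem_image.2 ⟨j, Finset.mem_univ _, hj⟩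
      have h3 := Finset.card_le_card h2
      rw [Finset.card_image_of_injective _ (Option.some_injective _)] at h3
      exact h3.trans (Finset.card_image_le.trans (by simp))
    have h4 := Finset.card_filter_add_card_filter_not
      (s := (Finset.univ : Finset (Fin D))) (fun i => ∀ j, f (y j) ≠ some i)
    rw [Finset.card_univ, Fintype.card_fin, ← hE] at h4
    omega
  let g : Fin n → Fin D := fun a => E.orderEmbOfCardLe hEc a
  have g1 : Function.Injective g := (E.orderEmbOfCardLe hEc).injective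
  have g2 : ∀ a j, f (y j) ≠ some (g a) := fun a j =>
    (Finset.mem_filter.1 (E.orderEmbOfCardLe_mem hEc a)).2 j
  set Q : Set W := {z | ∀ a, f z ≠ some (g a)} with hQ
  have hQ0Q : Q0 ⊆ Q := fun q hq a => by rw [fQ0 q hq]; exact fun h => nomatch h
  obtain ⟨⟨r0, hr0⟩⟩ := hQ0.nonempty
  have yQ : ∀ j, y j ∈ Q := fun j a => g2 a j
  have hQc : (H.induce Q).Connected := by
    rw [connected_iff_exists_forall_reachable]
    refine ⟨⟨r0, hQ0Q hr0⟩, ?_⟩
    rintro ⟨z, hz⟩
    have hsub : f ⁻¹' {f z} ⊆ Q := by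
      intro u hu a
      have hu' : f u = f z := hu
      rw [hu']
      exact hz a
    have hzm : z ∈ f ⁻¹' {f z} := rfl
    rcases hfz : f z with _ | i
    · have hm : r0 ∈ f ⁻¹' {f z} := by show f r0 = f z; rw [fQ0 r0 hr0, hfz]
      exact reach_mono hsub ((f2 (f z)).preconnected ⟨r0, hm⟩ ⟨z, hzm⟩)
    · have hm : ν i ∈ f ⁻¹' {f z} := by show f (ν i) = f z; rw [fν, hfz]
      obtain ⟨q, hq, hqν⟩ := (n2 i).2
      have h1 : (H.induce Q).Adj ⟨q, hQ0Q hq⟩ ⟨ν i, hsub hm⟩ := hqν
      exact (reach_mono hQ0Q (hQ0.preconnected ⟨r0, hr0⟩ ⟨q, hq⟩)).trans (h1.reachable.trans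
        (reach_mono hsub ((f2 (f z)).preconnected ⟨ν i, hm⟩ ⟨z, hzm⟩)))
  have νQ : ∀ a, ν (g a) ∉ Q := fun a h => h a (fν _)
  refine ⟨fun a => ({a} : Set (Fin n)) ×ˢ Q ∪ (Set.univ : Set (Fin n)) ×ˢ {ν (g a)},
    ⟨?_, ?_, ?_⟩, fun a j => ⟨(a, y j), Or.inl ⟨rfl, yQ j⟩, rfl⟩⟩
  · intro a
    obtain ⟨q, hq, hqν⟩ := (n2 (g a)).2
    refine connected_induce_union (v := (a, q)) (w := (a, ν (g a)))
      (conn_box (conn_point F a) hQc).preconnected
      (conn_box (conn_univ hF) (conn_point H _)).preconnected ⟨rfl, hQ0Q hq⟩ ⟨trivial, rfl⟩ ?_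
    exact ⟨fun h => hqν.ne (congrArg Prod.snd h), Or.inl rfl, Or.inr hqν⟩
  · intro a b hab
    rw [Set.disjoint_left]
    rintro ⟨x, z⟩ hx hx'
    rcases hx with ⟨h1, h2⟩ | ⟨_, h2⟩ <;> rcases hx' with ⟨h3, h4⟩ | ⟨_, h4⟩
    · have h1' : x = a := h1
      have h3' : x = b := h3
      exact hab (h1'.symm.trans h3')
    · have h4' : z = ν (g b) := h4
      exact νQ b (h4' ▸ h2)
    · have h2' : z = ν (g a) := h2
      exact νQ a (h2' ▸ h4)
    · have h2' : z = ν (g a) := h2
      have h4' : z = ν (g b) := h4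
      exact hab (g1 (n1 (h2'.symm.trans h4')))
  · intro a b hab
    obtain ⟨q, hq, hqν⟩ := (n2 (g b)).2
    refine ⟨(a, q), Or.inl ⟨rfl, hQ0Q hq⟩, (a, ν (g b)), Or.inr ⟨trivial, rfl⟩, ?_, Or.inl rfl,
      Or.inr hqν⟩
    exact fun h => hqν.ne (congrArg Prod.snd h)

end Pool.Agent.Run7.h367.SP
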