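import Pool.Agent.Run7.h367.SP.Direct

/-!
Clique minors in strong products with large connected graphs.
-/

set_option autoImplicit false

namespace Pool.Agent.Run7.h367.SP

open SimpleGraph Pool.Agent.Run7.h367.DP

/-- walks of the strands in which all pairs touch in the first `T` steps -/
def Wk {n : ℕ} (F : SimpleGraph (Fin n)) (T : ℕ) : Prop :=
  ∃ w : ℕ → Equiv.Perm (Fin n), (∀ t s, w (t + 1) s = w t s ∨ F.Adj (w t s) (w (t + 1) s)) ∧
    ∀ s s', s ≠ s' → ∃ t ≤ T, F.Adj (w t s) (w t s')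

theorem strands_exist {n s T : ℕ} {F : SimpleGraph (Fin n)} (hs : 1 ≤ s)
    (hF : F.Connected) (hw : Wk F T) {W : Type} {H : SimpleGraph W} (hH : H.Connected)
    (hf : ∃ f : Fin ((T + 1) * (n + s)) → W, Function.Injective f) (y : Fin s → W) :
    ∃ B : Fin n → Set (Fin n × W), Fam (S F H) B ∧ ∀ a j, ∃ x ∈ B a, x.2 = y j := by
  have hn : 1 ≤ n := by
    obtain ⟨a⟩ := hF.nonempty
    have := a.2
    omega
  rcases path_or_broom (by omega : 2 ≤ n + s) hH hf with ⟨p, p1, p2⟩ | ⟨Q, ν, h1, h2, h3⟩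
  · obtain ⟨w, w1, w2⟩ := hw
    obtain ⟨B, hB, hB'⟩ := cover_path hH w1 w2 p
      (fun i j hi hj h => p1 i j (by omega) (by omega) h) (fun i hi => p2 i (by omega))
    exact ⟨B, hB, fun a j => hB' a (y j)⟩
  · exact cover_broom hF hH Q h1 ν h2 h3 y (le_refl _)

/-- `n + m h` branch sets -/
theorem assemble {n m h T : ℕ} {F : SimpleGraph (Fin n)} (hF : F.Connected) (hC : CDS F m)
    (hw : Wk F T) {W : Type} {H : SimpleGraph W} (hH : H.Connected)
    (hf : ∃ f : Fin ((h + 1) * ((T + 1) * (n + (h + 1)))) → W, Function.Injective f)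
    (hR : CM H (h + 1)) : CM (S F H) (n + m * h) := by
  classical
  set M := (T + 1) * (n + (h + 1)) with hM
  obtain ⟨R, r1, r2, r3⟩ := hR
  obtain ⟨e, he⟩ := hf
  obtain ⟨f, f1, f2⟩ := extend hH (0 : Fin (h + 1)) R r1 r2
  obtain ⟨j0, hj0⟩ : ∃ j0 : Fin (h + 1),
      M ≤ (Finset.univ.filter (fun i : Fin ((h + 1) * M) => f (e i) = j0)).card := by
    apply Fintype.exists_le_card_fiber_of_mul_le_card
    simp
  have hport : ∀ j, ∃ u : (f ⁻¹' {j0} : Set W), j ≠ j0 → ∃ v, f v = j ∧ H.Adj u.1 v := by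
    intro j
    by_cases hj : j = j0
    · obtain ⟨u⟩ := (f2 j0).nonempty
      exact ⟨u, fun h => absurd hj h⟩
    · obtain ⟨u, hu, v, hv, huv⟩ := r3 j0 j (Ne.symm hj)
      exact ⟨⟨u, f1 j0 u hu⟩, fun _ => ⟨v, f1 j v hv, huv⟩⟩
  choose y hy using hport
  obtain ⟨B, hB, hB'⟩ := strands_exist (by omega : 1 ≤ h + 1) hF hw (f2 j0)
    ⟨fun i => ⟨e ((Finset.univ.filter (fun i => f (e i) = j0)).orderEmbOfCardLe hj0 i),
      (Finset.mem_filter.1 (Finset.orderEmbOfCardLe_mem _ hj0 i)).2⟩,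
      fun i j hij => ((Finset.univ.filter (fun i => f (e i) = j0)).orderEmbOfCardLe hj0).injective
        (he (Subtype.mk.inj hij))⟩ y
  obtain ⟨C, c1, c2, c3⟩ := hC
  have hCne : ∀ i, ∃ c, c ∈ C i := fun i => by
    obtain ⟨⟨c, hc⟩⟩ := (c1 i).nonempty
    exact ⟨c, hc⟩
  have gadj : ∀ x z : Fin n × (f ⁻¹' {j0} : Set W), (S F (H.induce (f ⁻¹' {j0}))).Adj x z →
      (S F H).Adj (x.1, x.2.1) (z.1, z.2.1) := by
    rintro ⟨a, b⟩ ⟨a', b'⟩ ⟨h1, h2, h3⟩
    refine ⟨?_, h2, h3.imp (fun h => congrArg Subtype.val h) (fun h => h)⟩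
    intro h
    simp only [Prod.mk.injEq] at h
    exact h1 (Prod.ext h.1 (Subtype.ext h.2))
  have F1 : Fam (S F H) (fun a : Fin n =>
      (fun x : Fin n × (f ⁻¹' {j0} : Set W) => (x.1, x.2.1)) '' B a) := by
    refine ⟨fun a => conn_im _ gadj (hB.conn a), fun a b hab => ?_, fun a b hab => ?_⟩
    · refine (Set.disjoint_image_iff ?_).2 (hB.disj a b hab)
      rintro ⟨a, b⟩ ⟨a', b'⟩ h
      simp only [Prod.mk.injEq] at h
      exact Prod.ext h.1 (Subtype.ext h.2)
    · obtain ⟨u, hu, v, hv, h⟩ := hB.adj a b hab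
      exact ⟨_, ⟨u, hu, rfl⟩, _, ⟨v, hv, rfl⟩, gadj u v h⟩
  have hdom : ∀ i j a b y' , f y' = j → H.Adj b y' → ∃ w ∈ C i ×ˢ (f ⁻¹' {j}),
      (S F H).Adj (a, b) w := by
    intro i j a b y' hy' hb
    rcases c3 i a with h | ⟨c, hc, hac⟩
    · exact ⟨(a, y'), ⟨h, hy'⟩, fun h => hb.ne (congrArg Prod.snd h), Or.inl rfl, Or.inr hb⟩
    · exact ⟨(c, y'), ⟨hc, hy'⟩, fun h => hb.ne (congrArg Prod.snd h), Or.inr hac, Or.inr hb⟩
  have F2 : Fam (S F H) (fun z : Fin m × Fin h => C z.1 ×ˢ (f ⁻¹' {j0.succAbove z.2})) := by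
    refine ⟨fun z => conn_box (c1 z.1) (f2 _), ?_, ?_⟩
    · rintro ⟨i, j⟩ ⟨i', j'⟩ hne
      rw [Set.disjoint_left]
      rintro x ⟨hx1, hx2⟩ ⟨hx3, hx4⟩
      have h1 : f x.2 = j0.succAbove j := hx2
      have h2 : f x.2 = j0.succAbove j' := hx4
      have h3 : j = j' := j0.succAboveEmb.injective (h1.symm.trans h2)
      by_cases hi : i = i'
      · exact hne (by rw [hi, h3])
      · exact (Set.disjoint_left.1 (c2 i i' hi)) hx1 hx3
    · rintro ⟨i, j⟩ ⟨i', j'⟩ hne
      obtain ⟨c, hc⟩ := hCne i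
      by_cases hj : j = j'
      · subst hj
        have hi : i ≠ i' := fun h => hne (by rw [h])
        obtain ⟨⟨b, hb⟩⟩ := (f2 (j0.succAbove j)).nonempty
        rcases c3 i' c with h | ⟨c', hc', hcc⟩
        · exact absurd h ((Set.disjoint_left.1 (c2 i i' hi)) hc)
        · exact ⟨(c, b), ⟨hc, hb⟩, (c', b), ⟨hc', hb⟩, fun h => hcc.ne (congrArg Prod.fst h),
            Or.inr hcc, Or.inl rfl⟩
      · obtain ⟨u, hu, v, hv, huv⟩ := r3 (j0.succAbove j) (j0.succAbove j')
          (fun h => hj (j0.succAboveEmb.injective h))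
        obtain ⟨w, hw, hw'⟩ := hdom i' (j0.succAbove j') c u v (f1 _ v hv) huv
        exact ⟨(c, u), ⟨hc, f1 _ u hu⟩, w, hw, hw'⟩
  have F3 := F1.sum F2 (by
    rintro a ⟨i, j⟩
    rw [Set.disjoint_left]
    rintro _ ⟨x, _, rfl⟩ ⟨_, hx2⟩
    have h1 : f x.2.1 = j0.succAbove j := hx2
    have h2 : f x.2.1 = j0 := x.2.2
    exact Fin.succAbove_ne j0 j (h1.symm.trans h2)) (by
    rintro a ⟨i, j⟩
    obtain ⟨v, hv, huv⟩ := hy (j0.succAbove j) (Fin.succAbove_ne j0 j)
    obtain ⟨x, hx, hx2⟩ := hB' a (j0.succAbove j)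
    obtain ⟨w, hw, hw'⟩ := hdom i (j0.succAbove j) x.1 x.2.1 v hv (by rw [hx2]; exact huv)
    exact ⟨_, ⟨x, hx, rfl⟩, w, hw, hw'⟩)
  have hcard : Fintype.card (Fin n ⊕ (Fin m × Fin h)) = n + m * h := by
    simp
  rw [← hcard]
  exact CM.of_fintype _ F3.conn F3.disj F3.adj

lemma shrink {W : Type} {M N : ℕ} (h : ∃ f : Fin M → W, Function.Injective f) (hN : N ≤ M) :
    ∃ f : Fin N → W, Function.Injective f := by
  obtain ⟨f, hf⟩ := h
  exact ⟨fun i => f (Fin.castLE hN i), fun i j h => Fin.castLE_injective hN (hf h)⟩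

theorem packH_gen {K h n m : ℕ} (hn : n ≤ K) {V W : Type} {G : SimpleGraph V}
    {H : SimpleGraph W} (hG : PackH G n m) (hH : H.Connected)
    (hf : ∃ f : Fin ((h + 1) * (K * (K + (h + 1)))) → W, Function.Injective f)
    (hR : CM H (h + 1)) : CM (S G H) (n + m * h) := by
  obtain ⟨F, φ, h1, h3, h4, h5, h6, h7⟩ := hG
  refine CM.of_factor φ h5 h6 (assemble h3 h4 (ham_walk h1 h7) hH (shrink hf ?_) hR)
  exact Nat.mul_le_mul_left _ (Nat.mul_le_mul (by omega) (by omega))

theorem main_gen {k h : ℕ} {V W : Type} {G : SimpleGraph V} {H : SimpleGraph W}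
    (hG : ¬ G.Colorable k) (hH : H.Connected)
    (hf : ∃ f : Fin ((h + 2) * ((2 * k + 1) * (2 * k + h + 3))) → W,
      Function.Injective f) (hR : CM H (h + 2)) : CM (S G H) (2 * k + 2 + h) := by
  obtain ⟨n, m, h1, h2, h3⟩ := coreH hG
  have e : (h + 1 + 1) * ((2 * k + 1) * ((2 * k + 1) + (h + 1 + 1))) =
      (h + 2) * ((2 * k + 1) * (2 * k + h + 3)) := by ring
  refine (packH_gen (h := h + 1) h1 h3 hH (by rw [e]; exact hf) hR).mono ?_
  have h4 : 1 ≤ m := by omega
  nlinarith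

lemma col_two {V W : Type} {G : SimpleGraph V} {H : SimpleGraph W} {x : ℕ} (hG : G.Colorable x)
    (hH : H.Colorable 2) : (S G H).Colorable (2 * x) := by
  obtain ⟨c⟩ := hG
  obtain ⟨d⟩ := hH
  have e : (S G H).Coloring (Fin 2 × Fin x) := by
    refine Coloring.mk (fun z => (d z.2, c z.1)) ?_
    rintro ⟨a, b⟩ ⟨a', b'⟩ ⟨h1, h2, h3⟩ h
    simp only [Prod.mk.injEq] at h
    rcases h3 with h3 | h3
    · rcases h2 with h2 | h2
      · exact h1 (Prod.ext h2 h3)
      · exact c.valid h2 h.2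
    · exact d.valid h3 h.1
  have := e.colorable
  rwa [Fintype.card_prod, Fintype.card_fin, Fintype.card_fin] at this

lemma cyc_adj {N : ℕ} {u v : Fin (2 * N + 1)} (h : (cycleGraph (2 * N + 1)).Adj u v) :
    (v.1 = u.1 + 1 ∨ (u.1 = 2 * N ∧ v.1 = 0)) ∨ (u.1 = v.1 + 1 ∨ (v.1 = 2 * N ∧ u.1 = 0)) := by
  rw [cycleGraph_adj'] at h
  have hu := u.2
  have hv := v.2
  rcases h with h | h
  · have h5 := Fin.intCast_val_sub_eq_sub_add_ite u v
    rw [h] at h5
    split_ifs at h5 <;> push_cast at h5 <;> omega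
  · have h5 := Fin.intCast_val_sub_eq_sub_add_ite v u
    rw [h] at h5
    split_ifs at h5 <;> push_cast at h5 <;> omega

lemma col_cyc {V W : Type} {G : SimpleGraph V} {H : SimpleGraph W} {a x q : ℕ}
    (hq : (2 * a + 1) * x ≤ a * q) (hG : G.Colorable x) (φ : H →g cycleGraph (2 * a + 1)) :
    (S G H).Colorable q := by
  obtain ⟨c⟩ := hG
  rcases Nat.eq_zero_or_pos q with rfl | hq0
  · have hx : x = 0 := by nlinarith
    subst hx
    have : IsEmpty V := ⟨fun v => (c v).elim0⟩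
    exact Colorable.of_isEmpty 0
  · refine ⟨Coloring.mk (fun z => (⟨(pos a q (φ z.2).1 + (c z.1).1) % q,
      Nat.mod_lt _ hq0⟩ : Fin q)) ?_⟩
    rintro ⟨u, b⟩ ⟨u', b'⟩ ⟨h1, h2, h3⟩ h
    have h' : (pos a q (φ b).1 + (c u).1) % q = (pos a q (φ b').1 + (c u').1) % q := Fin.mk.inj h
    have hi := (c u).2
    have hi' := (c u').2
    rcases h3 with h3 | h3
    · have hb : b = b' := h3
      subst hb
      rcases h2 with h2 | h2
      · exact h1 (Prod.ext h2 rfl)
      · have hxq : x ≤ q := by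
          obtain ⟨e, e1, e2, _⟩ := pos_step hq 0
          omega
        have h4 : (c u).1 ≡ (c u').1 [MOD q] := Nat.ModEq.add_left_cancel' _ h'
        have h5 := Nat.ModEq.eq_of_lt_of_lt h4 (by omega) (by omega)
        exact c.valid h2 (Fin.ext h5)
    · rcases cyc_adj (φ.map_adj h3) with h4 | h4
      · exact ne_of_pos hq hi hi' h4 h'
      · exact ne_of_pos hq hi' hi h4 h'.symm

/-- a graph that is not bipartite has a triangle minor -/
lemma cm_three {W : Type} {H : SimpleGraph W} (h2 : ¬ H.Colorable 2) : CM H 3 := by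
  obtain ⟨L, p, p0, p1, p2, p3⟩ := odd_cycle h2
  have hL : 3 ≤ L := by
    by_contra hcon
    obtain ⟨a, ha⟩ := p0
    have h1 : L = 1 := by omega
    subst h1
    exact (p1 0 (by omega)).ne p2.symm
  have f1 : Fam H (fun _ : Fin 1 => ({p 0} : Set W)) :=
    ⟨fun _ => conn_point H _, fun i j h => absurd (Subsingleton.elim i j) h,
      fun i j h => absurd (Subsingleton.elim i j) h⟩
  have f2 : Fam H (fun _ : Fin 1 => ({p 1} : Set W)) :=
    ⟨fun _ => conn_point H _, fun i j h => absurd (Subsingleton.elim i j) h,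
      fun i j h => absurd (Subsingleton.elim i j) h⟩
  have f3 : Fam H (fun _ : Fin 1 => p '' Set.Icc 2 (L - 1)) :=
    ⟨fun _ => conn_seq p 2 (L - 1) (by omega) (fun i _ hi => Or.inr (p1 i (by omega))),
      fun i j h => absurd (Subsingleton.elim i j) h,
      fun i j h => absurd (Subsingleton.elim i j) h⟩
  have f4 := f2.sum f3 (by
    intro _ _
    rw [Set.disjoint_left]
    rintro x hx ⟨i, hi, rfl⟩
    have hx' : p i = p 1 := hx
    have hi1 := hi.1
    have hi2 := hi.2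
    have := p3 i 1 (by omega) (by omega) hx'
    omega) (fun _ _ => ⟨p 1, rfl, p 2, ⟨2, ⟨le_refl _, by omega⟩, rfl⟩, p1 1 (by omega)⟩)
  have f5 := f1.sum f4 (by
    rintro _ (_ | _)
    · exact Set.disjoint_singleton.2 (p1 0 (by omega)).ne
    · rw [Set.disjoint_left]
      rintro x hx ⟨i, hi, rfl⟩
      have hx' : p i = p 0 := hx
      have hi1 := hi.1
      have hi2 := hi.2
      have := p3 i 0 (by omega) (by omega) hx'
      omega) (by
    rintro _ (_ | _)
    · exact ⟨p 0, rfl, p 1, rfl, p1 0 (by omega)⟩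
    · have h5 := p1 (L - 1) (by omega)
      have e : L - 1 + 1 = L := by omega
      rw [e, p2] at h5
      exact ⟨p 0, rfl, p (L - 1), ⟨L - 1, ⟨by omega, le_refl _⟩, rfl⟩, h5.symm⟩)
  have := CM.of_fintype _ f5.conn f5.disj f5.adj
  simpa using this

/-- a path with `N` vertices, or a connected set with `N` neighbours -/
def Wide {W : Type} (H : SimpleGraph W) (N : ℕ) : Prop :=
  (∃ p : Fin N → W, Function.Injective p ∧ ∀ i j : Fin N, i.1 + 1 = j.1 → H.Adj (p i) (p j)) ∨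
  ∃ (Q : Set W) (ν : Fin N → W), (H.induce Q).Connected ∧ Function.Injective ν ∧
    ∀ i, ν i ∉ Q ∧ ∃ q ∈ Q, H.Adj q (ν i)

lemma Wide.mono {W : Type} {H : SimpleGraph W} {M N : ℕ} (h : Wide H M) (hN : N ≤ M) :
    Wide H N := by
  rcases h with ⟨p, p1, p2⟩ | ⟨Q, ν, h1, h2, h3⟩
  · exact Or.inl ⟨fun i => p (Fin.castLE hN i), fun i j h => Fin.castLE_injective hN (p1 h),
      fun i j h => p2 _ _ h⟩
  · exact Or.inr ⟨Q, fun i => ν (Fin.castLE hN i), h1,
      fun i j h => Fin.castLE_injective hN (h2 h), fun i => h3 _⟩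

lemma wide_of_large {W : Type} {H : SimpleGraph W} (hH : H.Connected) {N : ℕ}
    (hf : ∃ f : Fin (N * N) → W, Function.Injective f) : Wide H N := by
  obtain ⟨w0⟩ := hH.nonempty
  rcases Nat.lt_or_ge N 2 with hN | hN
  · left
    refine ⟨fun _ => w0, fun i j _ => Fin.ext (by have := i.2; have := j.2; omega),
      fun i j h => ?_⟩
    have := i.2
    have := j.2
    omega
  · rcases path_or_broom hN hH hf with ⟨p, p1, p2⟩ | ⟨Q, ν, h1, h2, h3⟩
    · left
      refine ⟨fun i => p i.1, fun i j h => Fin.ext (p1 _ _ i.2 j.2 h), fun i j h => ?_⟩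
      show H.Adj (p i.1) (p j.1)
      rw [← h]
      exact p2 i.1 (by have := j.2; omega)
    · exact Or.inr ⟨Q, ν, h1, h2, h3⟩

theorem wide_minor {k : ℕ} {V W : Type} {G : SimpleGraph V} {H : SimpleGraph W}
    (hG : ¬ G.Colorable k) (hH : Wide H (2 * k + 2)) : CM (S G H) (2 * k + 2) := by
  rcases hH with ⟨p, p1, p2⟩ | ⟨Q, ν, h1, h2, h3⟩
  · refine dir_path hG (fun i => if h : i < 2 * k + 2 then p ⟨i, h⟩ else p ⟨0, by omega⟩) ?_ ?_
    · intro i j hi hj h
      simp only [hi, hj, dif_pos] at h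
      exact Fin.mk.inj (p1 h)
    · intro i hi
      have hi' : i < 2 * k + 2 := by omega
      simp only [hi, hi', dif_pos]
      exact p2 _ _ rfl
  · exact dir_broom hG Q h1 ν h2 h3

theorem cycle_minor {k : ℕ} {V W : Type} {G : SimpleGraph V} {H : SimpleGraph W}
    (hG : ¬ G.Colorable k) {v : W} (c : H.Walk v v) (hc : c.IsCycle) (hL : 2 * k + 3 ≤ c.length) :
    CM (S G H) (2 * k + 3) := by
  refine dir_cycle hG hL c.getVert ?_ ?_ ?_
  · intro i j hi hj h
    exact hc.getVert_injOn' (show i ≤ _ by omega) (show j ≤ _ by omega) h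
  · intro i hi
    exact c.adj_getVert_succ (by omega)
  · have := c.adj_getVert_succ (i := c.length - 1) (by omega)
    have e : c.length - 1 + 1 = c.length := by omega
    rw [e, c.getVert_length] at this
    rw [c.getVert_zero]
    exact this

/-- the chromatic number of the first factor -/
lemma split_chi {c : ℕ} {V : Type} {G : SimpleGraph V} (hG : G.Colorable c) :
    IsEmpty V ∨ ∃ x, x + 1 ≤ c ∧ G.Colorable (x + 1) ∧ ¬ G.Colorable x := by
  classical
  have hex : ∃ x, G.Colorable x := ⟨c, hG⟩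
  have hx := Nat.find_spec hex
  have hxc : Nat.find hex ≤ c := Nat.find_min' hex hG
  rcases hx0 : Nat.find hex with _ | x
  · left
    rw [hx0] at hx
    obtain ⟨d⟩ := hx
    exact ⟨fun v => (d v).elim0⟩
  · right
    rw [hx0] at hx hxc
    exact ⟨x, hxc, hx, Nat.find_min hex (by omega)⟩

theorem hadwiger {c k : ℕ} {V W : Type} {G : SimpleGraph V} {H : SimpleGraph W}
    (hG : G.Colorable c)
    (hH : (H.Colorable 2 ∧ Wide H (2 * c)) ∨
      (¬ H.Colorable 2 ∧ Nonempty (H →g cycleGraph (2 * c + 1))))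
    (hk : ¬ (S G H).Colorable k) : CM (S G H) (k + 1) := by
  rcases split_chi hG with h0 | ⟨x, hxc, hx, hx'⟩
  · exact absurd (Colorable.of_isEmpty k) hk
  · rcases hH with ⟨h2, hw⟩ | ⟨h2, ⟨φ⟩⟩
    · have h4 : k < 2 * (x + 1) := by
        by_contra hcon
        exact hk ((col_two hx h2).mono (not_lt.1 hcon))
      exact (wide_minor hx' (hw.mono (by omega))).mono (by omega)
    · obtain ⟨L, p, p0, p1, p2, p3⟩ := odd_cycle h2
      have hL := odd_long φ p p0 p1 p2
      have h3 : (S G H).Colorable (2 * (x + 1) + 1) := by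
        refine col_cyc ?_ hx φ
        nlinarith
      have h4 : k < 2 * (x + 1) + 1 := by
        by_contra hcon
        exact hk (h3.mono (not_lt.1 hcon))
      refine (dir_cycle hx' (show 2 * x + 3 ≤ L by omega) p p3 (fun i hi => p1 i (by omega))
        ?_).mono (by omega)
      have h5 := p1 (L - 1) (by omega)
      have e : L - 1 + 1 = L := by omega
      rwa [e, p2] at h5

/-- Q1 for factors with homomorphisms to shorter odd cycles -/
theorem q1_cycle {a k : ℕ} {V W : Type} {G : SimpleGraph V} {H : SimpleGraph W}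
    (hG : G.Colorable (2 * a)) (hH : H.Connected)
    (hf : ∃ f : Fin (12 * (a * (4 * a + 1))) → W, Function.Injective f)
    (φ : H →g cycleGraph (2 * a + 1)) (hk : ¬ (S G H).Colorable k) : CM (S G H) k := by
  rcases split_chi hG with h0 | ⟨x, hxc, hx, hx'⟩
  · exact absurd (Colorable.of_isEmpty k) hk
  · have ha : 1 ≤ a := by omega
    have hle : (1 + 2) * ((2 * x + 1) * (2 * x + 1 + 3)) ≤ 12 * (a * (4 * a + 1)) := by
      obtain ⟨b, rfl⟩ : ∃ b, a = b + 1 := ⟨a - 1, by omega⟩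
      calc (1 + 2) * ((2 * x + 1) * (2 * x + 1 + 3)) ≤ 3 * ((4 * b + 3) * (4 * b + 6)) :=
            Nat.mul_le_mul (by omega) (Nat.mul_le_mul (by omega) (by omega))
        _ ≤ 12 * ((b + 1) * (4 * (b + 1) + 1)) := by nlinarith
    by_cases h2 : H.Colorable 2
    · have h4 : k < 2 * (x + 1) := by
        by_contra hcon
        exact hk ((col_two hx h2).mono (not_lt.1 hcon))
      have hle' : (2 * x + 2) * (2 * x + 2) ≤ 12 * (a * (4 * a + 1)) := by
        refine le_trans ?_ hle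
        nlinarith
      exact (dir_large hx' hH (shrink hf hle')).mono (by omega)
    · have h3 : (S G H).Colorable (2 * (x + 1) + 2) := by
        refine col_cyc ?_ hx φ
        nlinarith
      have h4 : k < 2 * (x + 1) + 2 := by
        by_contra hcon
        exact hk (h3.mono (not_lt.1 hcon))
      exact (main_gen hx' hH (shrink hf hle) (cm_three h2)).mono (by omega)

/-- multiple colourings: sets of `c` colours, disjoint for adjacent vertices -/
lemma col_fold {V W : Type} {G : SimpleGraph V} {H : SimpleGraph W} {c q : ℕ}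
    (hG : G.Colorable c) (f : W → Finset (Fin q)) (f1 : ∀ w, (f w).card = c)
    (f2 : ∀ w w', H.Adj w w' → Disjoint (f w) (f w')) : (S G H).Colorable q := by
  obtain ⟨d⟩ := hG
  refine ⟨Coloring.mk (fun z => (f z.2).orderEmbOfFin (f1 z.2) (d z.1)) ?_⟩
  rintro ⟨a, b⟩ ⟨a', b'⟩ ⟨h1, h2, h3⟩ h
  have h' : (f b).orderEmbOfFin (f1 b) (d a) = (f b').orderEmbOfFin (f1 b') (d a') := h
  rcases h3 with h3 | h3
  · have hb : b = b' := h3
    subst hb
    rcases h2 with h2 | h2
    · exact h1 (Prod.ext h2 rfl)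
    · exact d.valid h2 (((f b).orderEmbOfFin (f1 b)).injective h')
  · have m1 := Finset.orderEmbOfFin_mem (f b) (f1 b) (d a)
    have m2 := Finset.orderEmbOfFin_mem (f b') (f1 b') (d a')
    rw [h'] at m1
    exact (Finset.disjoint_left.1 (f2 b b' h3)) m1 m2

end Pool.Agent.Run7.h367.SP
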