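import Pool.Agent.Run7.h367.SP.Ext

/-!
Strands along a Hamiltonian path of the first factor: `n` steps suffice.
-/

set_option autoImplicit false

namespace Pool.Agent.Run7.h367.SP

open SimpleGraph

/-- the reflected position -/
def fold (n z : ℕ) : ℕ := if z < n then z else 2 * n - 1 - z

/-- the position of the token `i` at time `t` -/
def tok (n t i : ℕ) : ℕ := fold n ((2 * i + t) % (2 * n))

lemma tok_lt {n : ℕ} (hn : 0 < n) (t i : ℕ) : tok n t i < n := by
  have h : (2 * i + t) % (2 * n) < 2 * n := Nat.mod_lt _ (by omega)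
  unfold tok fold
  split_ifs <;> omega

lemma tok_inj {n t i j : ℕ} (hi : i < n) (hj : j < n) (h : tok n t i = tok n t j) : i = j := by
  have e1 := Nat.div_add_mod (2 * i + t) (2 * n)
  have e2 := Nat.div_add_mod (2 * j + t) (2 * n)
  have l1 : (2 * i + t) % (2 * n) < 2 * n := Nat.mod_lt _ (by omega)
  have l2 : (2 * j + t) % (2 * n) < 2 * n := Nat.mod_lt _ (by omega)
  rw [Nat.mul_assoc] at e1 e2
  have key : (2 * i + t) % (2 * n) = (2 * j + t) % (2 * n) := by
    unfold tok fold at h
    split_ifs at h <;> omega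
  have h1 : 2 * i ≡ 2 * j [MOD 2 * n] := Nat.ModEq.add_right_cancel' t key
  have h2 := Nat.ModEq.eq_of_lt_of_lt h1 (by omega) (by omega)
  omega

lemma tok_next {n : ℕ} (hn : 0 < n) (t i : ℕ) : tok n (t + 1) i = tok n t i ∨
    tok n (t + 1) i = tok n t i + 1 ∨ tok n t i = tok n (t + 1) i + 1 := by
  have l1 : (2 * i + t) % (2 * n) < 2 * n := Nat.mod_lt _ (by omega)
  have e : (2 * i + (t + 1)) % (2 * n) = ((2 * i + t) % (2 * n) + 1) % (2 * n) := by
    rw [← Nat.add_assoc, Nat.mod_add_mod]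
  unfold tok
  rw [e]
  set z := (2 * i + t) % (2 * n)
  rcases Nat.lt_or_ge (z + 1) (2 * n) with h | h
  · rw [Nat.mod_eq_of_lt h]
    unfold fold
    split_ifs <;> omega
  · have h1 : z + 1 = 2 * n := by omega
    rw [h1, Nat.mod_self]
    unfold fold
    split_ifs <;> omega

lemma tok_meet {n i j : ℕ} (hi : i < n) (hj : j < n) (hij : i ≠ j) : ∃ t, t < n ∧
    (tok n t i = tok n t j + 1 ∨ tok n t j = tok n t i + 1) := by
  obtain ⟨t, ht, hs⟩ : ∃ t, t < n ∧ (i + j + t = n ∨ i + j + t = 2 * n) := by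
    rcases Nat.lt_or_ge n (i + j) with h | h
    · exact ⟨2 * n - (i + j), by omega, by omega⟩
    · exact ⟨n - (i + j), by omega, by omega⟩
  refine ⟨t, ht, ?_⟩
  have m1 : (2 * i + t) % (2 * n) = if 2 * i + t < 2 * n then 2 * i + t else 2 * i + t - 2 * n := by
    split_ifs with h
    · exact Nat.mod_eq_of_lt h
    · rw [Nat.mod_eq_sub_mod (not_lt.1 h), Nat.mod_eq_of_lt (by omega)]
  have m2 : (2 * j + t) % (2 * n) = if 2 * j + t < 2 * n then 2 * j + t else 2 * j + t - 2 * n := by
    split_ifs with h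
    · exact Nat.mod_eq_of_lt h
    · rw [Nat.mod_eq_sub_mod (not_lt.1 h), Nat.mod_eq_of_lt (by omega)]
  unfold tok
  rw [m1, m2]
  unfold fold
  split_ifs <;> omega

/-- the tokens as permutations -/
noncomputable def tokPerm {n : ℕ} (hn : 0 < n) (t : ℕ) : Equiv.Perm (Fin n) :=
  Equiv.ofBijective (fun i => ⟨tok n t i.1, tok_lt hn t i.1⟩)
    (Finite.injective_iff_bijective.1 (fun i j h =>
      Fin.ext (tok_inj i.2 j.2 (Fin.mk.inj h))))

lemma tokPerm_val {n : ℕ} (hn : 0 < n) (t : ℕ) (i : Fin n) :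
    (tokPerm hn t i).1 = tok n t i.1 := rfl

lemma adj_of_val {n : ℕ} {F : SimpleGraph (Fin n)}
    (hv : ∀ (i : ℕ) (h : i + 1 < n), F.Adj ⟨i, by omega⟩ ⟨i + 1, h⟩) {a b : Fin n}
    (h : b.1 = a.1 + 1) : F.Adj a b := by
  obtain ⟨a, ha⟩ := a
  obtain ⟨b, hb⟩ := b
  have h' : b = a + 1 := h
  subst h'
  exact hv a hb

theorem ham_walk {n : ℕ} (hn : 0 < n) {F : SimpleGraph (Fin n)}
    (hv : ∀ (i : ℕ) (h : i + 1 < n), F.Adj ⟨i, by omega⟩ ⟨i + 1, h⟩) :
    ∃ w : ℕ → Equiv.Perm (Fin n), (∀ t s, w (t + 1) s = w t s ∨ F.Adj (w t s) (w (t + 1) s)) ∧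
      ∀ s s', s ≠ s' → ∃ t ≤ n - 1, F.Adj (w t s) (w t s') := by
  refine ⟨tokPerm hn, fun t s => ?_, fun s s' h => ?_⟩
  · rcases tok_next hn t s.1 with h | h | h
    · left
      exact Fin.ext h
    · right
      exact adj_of_val hv h
    · right
      exact (adj_of_val hv h).symm
  · obtain ⟨t, ht, h1 | h1⟩ := tok_meet s.2 s'.2 (fun e => h (Fin.ext e))
    · exact ⟨t, by omega, (adj_of_val hv h1).symm⟩
    · exact ⟨t, by omega, adj_of_val hv h1⟩

/-- one more vertex on a path -/
theorem path_step {U : Type} [Fintype U] {G : SimpleGraph U} (hG : G.Connected) {k L : ℕ}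
    (hdeg : ∀ v, ∃ N : Finset U, k ≤ N.card ∧ ∀ x ∈ N, G.Adj v x) (hL : 1 ≤ L) (hLk : L ≤ 2 * k)
    (hLc : L < Fintype.card U) (p : ℕ → U) (p1 : ∀ i j, i < L → j < L → p i = p j → i = j)
    (p2 : ∀ i, i + 1 < L → G.Adj (p i) (p (i + 1))) :
    ∃ q : ℕ → U, (∀ i j, i < L + 1 → j < L + 1 → q i = q j → i = j) ∧
      ∀ i, i + 1 < L + 1 → G.Adj (q i) (q (i + 1)) := by
  classical
  -- extension in front
  have front : ∀ (c : ℕ → U) (x : U), (∀ i j, i < L → j < L → c i = c j → i = j) →
      (∀ i, i + 1 < L → G.Adj (c i) (c (i + 1))) → G.Adj x (c 0) → (∀ i, i < L → c i ≠ x) →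
      ∃ q : ℕ → U, (∀ i j, i < L + 1 → j < L + 1 → q i = q j → i = j) ∧
        ∀ i, i + 1 < L + 1 → G.Adj (q i) (q (i + 1)) := by
    intro c x c1 c2 hx hx'
    refine ⟨fun i => if i = 0 then x else c (i - 1), ?_, ?_⟩
    · intro i j hi hj h
      by_cases h1 : i = 0 <;> by_cases h2 : j = 0 <;> simp only [h1, h2, if_true, if_false] at h ⊢
      · exact absurd h.symm (hx' (j - 1) (by omega))
      · exact absurd h (hx' (i - 1) (by omega))
      · have := c1 (i - 1) (j - 1) (by omega) (by omega) h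
        omega
    · intro i hi
      by_cases h1 : i = 0
      · subst h1
        simpa using hx
      · have h2 : ¬ (i + 1 = 0) := by omega
        simp only [h1, h2, if_false]
        obtain ⟨i', rfl⟩ : ∃ i', i = i' + 1 := ⟨i - 1, by omega⟩
        have := c2 i' (by omega)
        simpa using this
  -- a spanning cycle of the path suffices
  have cyc : ∀ c : ℕ → U, (∀ i j, i < L → j < L → c i = c j → i = j) →
      (∀ i, i + 1 < L → G.Adj (c i) (c (i + 1))) → G.Adj (c (L - 1)) (c 0) →
      ∃ q : ℕ → U, (∀ i j, i < L + 1 → j < L + 1 → q i = q j → i = j) ∧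
        ∀ i, i + 1 < L + 1 → G.Adj (q i) (q (i + 1)) := by
    intro c c1 c2 c3
    obtain ⟨y, hy⟩ : ∃ y, ∀ i, i < L → c i ≠ y := by
      by_contra hcon
      push Not at hcon
      have h1 : (Finset.univ : Finset U).card ≤ ((Finset.range L).image c).card := by
        apply Finset.card_le_card
        intro y _
        obtain ⟨i, hi, h⟩ := hcon y
        exact Finset.mem_image.2 ⟨i, Finset.mem_range.2 hi, h⟩
      have h2 := (Finset.card_image_le (s := Finset.range L) (f := c))
      rw [Finset.card_range] at h2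
      rw [Finset.card_univ] at h1
      omega
    obtain ⟨w⟩ := hG.preconnected (c 0) y
    obtain ⟨d, _, hd1, hd2⟩ := w.exists_boundary_dart {x | ∃ i, i < L ∧ c i = x}
      ⟨0, by omega, rfl⟩ (by rintro ⟨i, hi, h⟩; exact hy i hi h)
    obtain ⟨j, hj, hjd⟩ := hd1
    refine front (fun m => c ((j + m) % L)) d.snd ?_ ?_ ?_ ?_
    · intro a b ha hb h
      have h1 := c1 _ _ (Nat.mod_lt _ (by omega)) (Nat.mod_lt _ (by omega)) h
      have h2 : a ≡ b [MOD L] := Nat.ModEq.add_left_cancel' j h1
      exact Nat.ModEq.eq_of_lt_of_lt h2 ha hb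
    · intro m _
      have l1 : (j + m) % L < L := Nat.mod_lt _ (by omega)
      have e : (j + (m + 1)) % L = ((j + m) % L + 1) % L := by
        rw [← Nat.add_assoc, Nat.mod_add_mod]
      show G.Adj (c ((j + m) % L)) (c ((j + (m + 1)) % L))
      rw [e]
      rcases Nat.lt_or_ge ((j + m) % L + 1) L with h | h
      · rw [Nat.mod_eq_of_lt h]
        exact c2 _ h
      · have h1 : (j + m) % L + 1 = L := by omega
        rw [h1, Nat.mod_self]
        have h2 : (j + m) % L = L - 1 := by omega
        rw [h2]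
        exact c3
    · show G.Adj d.snd (c ((j + 0) % L))
      rw [Nat.add_zero, Nat.mod_eq_of_lt hj, hjd]
      exact d.adj.symm
    · intro m _ h
      exact hd2 ⟨(j + m) % L, Nat.mod_lt _ (by omega), h⟩
  obtain ⟨N, hN, hN'⟩ := hdeg (p 0)
  obtain ⟨N2, hM, hM'⟩ := hdeg (p (L - 1))
  by_cases hNin : ∀ x ∈ N, ∃ i, i < L ∧ p i = x
  swap
  · push Not at hNin
    obtain ⟨x, hx, hx'⟩ := hNin
    exact front p x p1 p2 (hN' x hx).symm hx'
  by_cases hMin : ∀ x ∈ N2, ∃ i, i < L ∧ p i = x
  swap
  · push Not at hMin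
    obtain ⟨x, hx, hx'⟩ := hMin
    refine front (fun i => p (L - 1 - i)) x ?_ ?_ ?_ ?_
    · intro i j hi hj h
      have := p1 (L - 1 - i) (L - 1 - j) (by omega) (by omega) h
      omega
    · intro i hi
      have := p2 (L - 1 - (i + 1)) (by omega)
      have e : L - 1 - (i + 1) + 1 = L - 1 - i := by omega
      rw [e] at this
      exact this.symm
    · exact (hM' x hx).symm
    · intro i hi
      exact hx' (L - 1 - i) (by omega)
  -- crossing
  obtain ⟨i, hi1, hiL, hi2, hi3⟩ : ∃ i, 1 ≤ i ∧ i < L ∧ G.Adj (p 0) (p i) ∧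
      G.Adj (p (L - 1)) (p (i - 1)) := by
    set I := (Finset.Ico 1 L).filter (fun i => p i ∈ N) with hI
    set J := (Finset.Ico 1 L).filter (fun i => p (i - 1) ∈ N2) with hJ
    have hIc : k ≤ I.card := by
      refine hN.trans ((Finset.card_le_card (t := I.image p) ?_).trans Finset.card_image_le)
      intro x hx
      obtain ⟨i, hi, rfl⟩ := hNin x hx
      refine Finset.mem_image.2 ⟨i, Finset.mem_filter.2 ⟨Finset.mem_Ico.2 ⟨?_, hi⟩, hx⟩, rfl⟩
      by_contra h0
      have : i = 0 := by omega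
      subst this
      exact (hN' _ hx).ne rfl
    have hJc : k ≤ J.card := by
      refine hM.trans ((Finset.card_le_card (t := J.image (fun i => p (i - 1))) ?_).trans
        Finset.card_image_le)
      intro x hx
      obtain ⟨i, hi, rfl⟩ := hMin x hx
      have hne : i ≠ L - 1 := by
        rintro rfl
        exact (hM' _ hx).ne rfl
      exact Finset.mem_image.2 ⟨i + 1, Finset.mem_filter.2 ⟨Finset.mem_Ico.2 ⟨by omega, by omega⟩,
        by simpa using hx⟩, by simp⟩
    have hne : ¬ Disjoint I J := by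
      intro hd
      have h1 : (I ∪ J).card ≤ (Finset.Ico 1 L).card := Finset.card_le_card
        (Finset.union_subset (Finset.filter_subset _ _) (Finset.filter_subset _ _))
      rw [Finset.card_union_of_disjoint hd, Nat.card_Ico] at h1
      omega
    rw [Finset.not_disjoint_iff] at hne
    obtain ⟨i, h1, h2⟩ := hne
    have h3 := Finset.mem_filter.1 h1
    have h4 := Finset.mem_filter.1 h2
    have h5 := Finset.mem_Ico.1 h3.1
    exact ⟨i, h5.1, h5.2, hN' _ h3.2, hM' _ h4.2⟩
  refine cyc (fun j => if j < i then p j else p (L - 1 - (j - i))) ?_ ?_ ?_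
  · intro a b ha hb h
    by_cases h1 : a < i <;> by_cases h2 : b < i <;> simp only [h1, h2, if_true, if_false] at h
    · exact p1 a b (by omega) (by omega) h
    · have := p1 _ _ (by omega) (by omega) h
      omega
    · have := p1 _ _ (by omega) (by omega) h
      omega
    · have := p1 _ _ (by omega) (by omega) h
      omega
  · intro a ha
    by_cases h1 : a + 1 < i
    · have h2 : a < i := by omega
      simp only [h1, h2, if_true]
      exact p2 a (by omega)
    · by_cases h2 : a < i
      · simp only [h1, h2, if_true, if_false]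
        have e1 : a = i - 1 := by omega
        have e2 : L - 1 - (a + 1 - i) = L - 1 := by omega
        rw [e2, e1]
        exact hi3.symm
      · simp only [h1, h2, if_false]
        have := p2 (L - 1 - (a + 1 - i)) (by omega)
        have e : L - 1 - (a + 1 - i) + 1 = L - 1 - (a - i) := by omega
        rw [e] at this
        exact this.symm
  · have h1 : ¬ (L - 1 < i) := by omega
    have h2 : 0 < i := by omega
    simp only [h1, h2, if_true, if_false]
    have e : L - 1 - (L - 1 - i) = i := by omega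
    rw [e]
    exact hi2.symm

/-- long paths in connected graphs of large minimum degree -/
theorem long_path {U : Type} [Fintype U] {G : SimpleGraph U} (hG : G.Connected) {k : ℕ}
    (hdeg : ∀ v, ∃ N : Finset U, k ≤ N.card ∧ ∀ x ∈ N, G.Adj v x) :
    ∀ L, 1 ≤ L → L ≤ 2 * k + 1 → L ≤ Fintype.card U →
    ∃ q : ℕ → U, (∀ i j, i < L → j < L → q i = q j → i = j) ∧
      ∀ i, i + 1 < L → G.Adj (q i) (q (i + 1)) := by
  intro L hL
  induction L, hL using Nat.le_induction with
  | base =>
    intro _ _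
    obtain ⟨a⟩ := hG.nonempty
    exact ⟨fun _ => a, fun i j hi hj _ => by omega, fun i hi => by omega⟩
  | succ L hL ih =>
    intro h1 h2
    obtain ⟨p, p1, p2⟩ := ih (by omega) (by omega)
    exact path_step hG hdeg hL (by omega) (by omega) p p1 p2

end Pool.Agent.Run7.h367.SP
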