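import Pool.Agent.Run7.h367.SP.Gen

/-!
Closed neighbourhoods and bags of decompositions of strong products.
-/

set_option autoImplicit false

namespace Pool.Agent.Run7.h367.SP

open SimpleGraph Pool.Agent.Run7.h367.DP

/-- colourings of induced subgraphs of products -/
lemma col_sub {V W : Type} {G : SimpleGraph V} {H : SimpleGraph W} {A : Set V} {B : Set W}
    {C : Set (V × W)} (hC : ∀ z ∈ C, z.1 ∈ A ∧ z.2 ∈ B) {q : ℕ}
    (h : (S (G.induce A) (H.induce B)).Colorable q) : ((S G H).induce C).Colorable q := by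
  obtain ⟨d⟩ := h
  refine ⟨Coloring.mk (fun z => d (⟨z.1.1, (hC _ z.2).1⟩, ⟨z.1.2, (hC _ z.2).2⟩)) ?_⟩
  rintro ⟨⟨a, b⟩, hz⟩ ⟨⟨a', b'⟩, hz'⟩ h
  obtain ⟨h1, h2, h3⟩ := h
  refine d.valid ⟨?_, ?_, ?_⟩
  · intro e
    apply h1
    rw [Prod.mk.injEq, Subtype.mk.injEq, Subtype.mk.injEq] at e
    exact Prod.ext e.1 e.2
  · rcases h2 with h2 | h2
    · exact Or.inl (Subtype.ext h2)
    · exact Or.inr h2
  · rcases h3 with h3 | h3
    · exact Or.inl (Subtype.ext h3)
    · exact Or.inr h3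

lemma col_prod {V W : Type} {G : SimpleGraph V} {H : SimpleGraph W} {x y : ℕ} (hG : G.Colorable x)
    (hH : H.Colorable y) : (S G H).Colorable (y * x) := by
  obtain ⟨c⟩ := hG
  obtain ⟨d⟩ := hH
  have e : (S G H).Coloring (Fin y × Fin x) := by
    refine Coloring.mk (fun z => (d z.2, c z.1)) ?_
    rintro ⟨a, b⟩ ⟨a', b'⟩ ⟨h1, h2, h3⟩ h
    simp only [Prod.mk.injEq] at h
    rcases h3 with h3 | h3
    · rcases h2 with h2 | h2
      · exact h1 (Prod.ext h2 h3)
      · exact c.valid h2 h.2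
    · exact d.valid h3 h.1
  have := e.colorable
  rwa [Fintype.card_prod, Fintype.card_fin, Fintype.card_fin] at this

/-- `H` is large and rich enough for `c` and `r` -/
def Rich {W : Type} (H : SimpleGraph W) (c r : ℕ) : Prop :=
  (r = 0 ∧ Wide H (2 * c)) ∨
    (H.Connected ∧ CM H (r * c + 2) ∧
      ∃ f : Fin ((r * c + 2) * (2 * c * ((r + 2) * c + 1))) → W, Function.Injective f)

lemma rich_minor {c r x : ℕ} {V W : Type} {G : SimpleGraph V} {H : SimpleGraph W}
    (hG : ¬ G.Colorable x) (hx : x + 1 ≤ c) (hH : Rich H c r) :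
    CM (S G H) ((r + 2) * (x + 1)) := by
  rcases hH with ⟨rfl, hw⟩ | ⟨h1, h2, h3⟩
  · exact (wide_minor hG (hw.mono (by omega))).mono (by omega)
  · have h4 := main_gen (h := r * c) hG h1 (shrink h3 ?_) h2
    · refine h4.mono ?_
      nlinarith
    · refine Nat.mul_le_mul_left _ (Nat.mul_le_mul (by omega) ?_)
      nlinarith

/-- the smallest chromatic number of a closed neighbourhood -/
lemma split_loc {c : ℕ} {V : Type} {G : SimpleGraph V}
    (hG : ∃ v, (G.induce (insert v (G.neighborSet v))).Colorable c) :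
    ∃ x, x + 1 ≤ c ∧ (∃ v, (G.induce (insert v (G.neighborSet v))).Colorable (x + 1)) ∧
      ¬ G.Colorable x := by
  classical
  have hex : ∃ m, ∃ v, (G.induce (insert v (G.neighborSet v))).Colorable m := ⟨c, hG⟩
  have hx := Nat.find_spec hex
  have hxc : Nat.find hex ≤ c := Nat.find_min' hex hG
  rcases hx0 : Nat.find hex with _ | x
  · exfalso
    rw [hx0] at hx
    obtain ⟨v, ⟨d⟩⟩ := hx
    exact (d ⟨v, Set.mem_insert _ _⟩).elim0
  · rw [hx0] at hx hxc
    refine ⟨x, hxc, hx, fun h => Nat.find_min hex (m := x) (by omega) ?_⟩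
    obtain ⟨v, -⟩ := hx
    exact ⟨v, h.of_hom (Embedding.induce _).toHom⟩

theorem local_strong {c r t : ℕ} {V W : Type} {G : SimpleGraph V} {H : SimpleGraph W}
    (hG : ∃ v, (G.induce (insert v (G.neighborSet v))).Colorable c) (hH : Rich H c r) (w : W)
    (hw : (H.induce (insert w (H.neighborSet w))).Colorable (r + 2))
    (ht : ¬ CM (S G H) (t + 1)) :
    ∃ v : V, ((S G H).induce (insert (v, w) ((S G H).neighborSet (v, w)))).Colorable t := by
  obtain ⟨x, hx, ⟨v, hv⟩, hn⟩ := split_loc hG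
  have h1 := rich_minor hn hx hH
  have h2 : (r + 2) * (x + 1) ≤ t := by
    by_contra hcon
    exact ht (h1.mono (by omega))
  refine ⟨v, (col_sub ?_ (col_prod hv hw)).mono h2⟩
  rintro ⟨a, b⟩ hz
  rcases hz with hz | hz
  · rw [Prod.mk.injEq] at hz
    exact ⟨Or.inl hz.1, Or.inl hz.2⟩
  · obtain ⟨-, h4, h5⟩ := hz
    exact ⟨h4.imp Eq.symm id, h5.imp Eq.symm id⟩

end Pool.Agent.Run7.h367.SP
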