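import Pool.Agent.Run7.h367.DP.Inf

/-!
Strong products: walks of permutations, families of branch sets.
-/

set_option autoImplicit false

namespace Pool.Agent.Run7.h367.SP

open SimpleGraph Pool.Agent.Run7.h367.DP

/-- the strong product -/
def S {V W : Type} (G : SimpleGraph V) (H : SimpleGraph W) : SimpleGraph (V × W) where
  Adj x y := x ≠ y ∧ (x.1 = y.1 ∨ G.Adj x.1 y.1) ∧ (x.2 = y.2 ∨ H.Adj x.2 y.2)
  symm := ⟨fun _ _ h => ⟨h.1.symm, h.2.1.imp Eq.symm SimpleGraph.Adj.symm,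
    h.2.2.imp Eq.symm SimpleGraph.Adj.symm⟩⟩
  loopless := ⟨fun _ h => h.1 rfl⟩

/-- an interval of a sequence of adjacent or equal vertices -/
lemma conn_seq {U : Type} {F : SimpleGraph U} (f : ℕ → U) (lo hi : ℕ) (h : lo ≤ hi)
    (hs : ∀ i, lo ≤ i → i < hi → f i = f (i + 1) ∨ F.Adj (f i) (f (i + 1))) :
    (F.induce (f '' Set.Icc lo hi)).Connected := by
  rw [connected_iff_exists_forall_reachable]
  have h0 : f lo ∈ f '' Set.Icc lo hi := ⟨lo, ⟨le_refl _, h⟩, rfl⟩
  refine ⟨⟨f lo, h0⟩, ?_⟩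
  have key : ∀ i, lo ≤ i → i ≤ hi → ∀ (hm : f i ∈ f '' Set.Icc lo hi),
      (F.induce (f '' Set.Icc lo hi)).Reachable ⟨f lo, h0⟩ ⟨f i, hm⟩ := by
    intro i hi1
    induction i, hi1 using Nat.le_induction with
    | base => intro _ hm; exact Reachable.refl _
    | succ i hi1 ih =>
      intro hi2 hm
      have hm' : f i ∈ f '' Set.Icc lo hi := ⟨i, ⟨hi1, by omega⟩, rfl⟩
      have h1 := ih (by omega) hm'
      rcases hs i hi1 (by omega) with h2 | h2
      · have : (⟨f i, hm'⟩ : ↥(f '' Set.Icc lo hi)) = ⟨f (i + 1), hm⟩ := Subtype.ext h2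
        rwa [this] at h1
      · exact h1.trans (Adj.reachable (by simpa using h2))
  rintro ⟨_, i, hi1, rfl⟩
  exact key i hi1.1 hi1.2 _

/-- clique minors indexed by a finite type -/
lemma CM.of_fintype {U ι : Type} [Fintype ι] {F : SimpleGraph U} (B : ι → Set U)
    (h1 : ∀ i, (F.induce (B i)).Connected) (h2 : ∀ i j, i ≠ j → Disjoint (B i) (B j))
    (h3 : ∀ i j, i ≠ j → ∃ u ∈ B i, ∃ w ∈ B j, F.Adj u w) : CM F (Fintype.card ι) := by
  let e := (Fintype.equivFin ι).symm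
  exact ⟨fun i => B (e i), fun i => h1 _, fun i j hij => h2 _ _ (fun h => hij (e.injective h)),
    fun i j hij => h3 _ _ (fun h => hij (e.injective h))⟩

section Walk

variable {A : Type} [Fintype A] [DecidableEq A]

/-- permutations, joined by swaps along edges -/
def Cay (F : SimpleGraph A) : SimpleGraph (Equiv.Perm A) :=
  SimpleGraph.fromRel (fun σ τ => ∃ a b, F.Adj a b ∧ τ = Equiv.swap a b * σ)

lemma swap_move {F : SimpleGraph A} {a b : A} (h : F.Adj a b) (x : A) :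
    Equiv.swap a b x = x ∨ F.Adj x (Equiv.swap a b x) := by
  by_cases h1 : x = a
  · right
    rw [h1, Equiv.swap_apply_left]
    exact h
  · by_cases h2 : x = b
    · right
      rw [h2, Equiv.swap_apply_right]
      exact h.symm
    · left
      exact Equiv.swap_apply_of_ne_of_ne h1 h2

lemma cay_move {F : SimpleGraph A} {σ τ : Equiv.Perm A} (h : (Cay F).Adj σ τ) (s : A) :
    τ s = σ s ∨ F.Adj (σ s) (τ s) := by
  rw [Cay, SimpleGraph.fromRel_adj] at h
  rcases h.2 with ⟨a, b, hab, rfl⟩ | ⟨a, b, hab, rfl⟩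
  · exact swap_move hab (σ s)
  · rcases swap_move hab (τ s) with h1 | h1
    · left
      exact h1.symm
    · right
      exact h1.symm

end Walk

/-- a family of branch sets of a clique minor -/
structure Fam {U ι : Type} (F : SimpleGraph U) (B : ι → Set U) : Prop where
  conn : ∀ i, (F.induce (B i)).Connected
  disj : ∀ i j, i ≠ j → Disjoint (B i) (B j)
  adj : ∀ i j, i ≠ j → ∃ u ∈ B i, ∃ w ∈ B j, F.Adj u w

lemma Fam.sum {U ι κ : Type} {F : SimpleGraph U} {B : ι → Set U} {C : κ → Set U}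
    (hB : Fam F B) (hC : Fam F C) (hd : ∀ i j, Disjoint (B i) (C j))
    (ha : ∀ i j, ∃ u ∈ B i, ∃ w ∈ C j, F.Adj u w) : Fam F (Sum.elim B C) := by
  refine ⟨?_, ?_, ?_⟩
  · rintro (i | j)
    · exact hB.conn i
    · exact hC.conn j
  · rintro (i | j) (i' | j') h
    · exact hB.disj i i' (fun e => h (by rw [e]))
    · exact hd i j'
    · exact (hd i' j).symm
    · exact hC.disj j j' (fun e => h (by rw [e]))
  · rintro (i | j) (i' | j') h
    · exact hB.adj i i' (fun e => h (by rw [e]))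
    · exact ha i j'
    · obtain ⟨u, hu, w, hw, h⟩ := ha i' j
      exact ⟨w, hw, u, hu, h.symm⟩
    · exact hC.adj j j' (fun e => h (by rw [e]))

/-- pairwise disjoint connected dominating sets -/
def CDS {A : Type} (F : SimpleGraph A) (m : ℕ) : Prop :=
  ∃ C : Fin m → Set A, (∀ i, (F.induce (C i)).Connected) ∧ (∀ i j, i ≠ j → Disjoint (C i) (C j)) ∧
    ∀ i a, a ∈ C i ∨ ∃ c ∈ C i, F.Adj a c

lemma conn_box {A W : Type} {F : SimpleGraph A} {H : SimpleGraph W} {X : Set A} {R : Set W}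
    (hX : (F.induce X).Connected) (hR : (H.induce R).Connected) :
    ((S F H).induce (X ×ˢ R)).Connected := by
  obtain ⟨⟨a0, ha0⟩⟩ := hX.nonempty
  obtain ⟨⟨r0, hr0⟩⟩ := hR.nonempty
  rw [connected_iff_exists_forall_reachable]
  refine ⟨⟨(a0, r0), ha0, hr0⟩, ?_⟩
  rintro ⟨⟨a, r⟩, ha, hr⟩
  have ha' : a ∈ X := ha
  have hr' : r ∈ R := hr
  let φ : F.induce X →g (S F H).induce (X ×ˢ R) :=
    ⟨fun x => ⟨(x.1, r0), x.2, hr0⟩, fun {x y} h =>
      ⟨fun h' => h.ne (Subtype.ext (congrArg Prod.fst h')), Or.inr h, Or.inl rfl⟩⟩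
  let ψ : H.induce R →g (S F H).induce (X ×ˢ R) :=
    ⟨fun y => ⟨(a, y.1), ha', y.2⟩, fun {x y} h =>
      ⟨fun h' => h.ne (Subtype.ext (congrArg Prod.snd h')), Or.inl rfl, Or.inr h⟩⟩
  exact ((hX.preconnected ⟨a0, ha0⟩ ⟨a, ha'⟩).map φ).trans
    ((hR.preconnected ⟨r0, hr0⟩ ⟨r, hr'⟩).map ψ)

lemma conn_point {W : Type} (H : SimpleGraph W) (x : W) : (H.induce {x}).Connected := by
  rw [connected_iff_exists_forall_reachable]
  refine ⟨⟨x, rfl⟩, ?_⟩
  rintro ⟨y, hy⟩
  have : y = x := hy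
  subst this
  exact Reachable.refl _

lemma conn_univ {A : Type} {F : SimpleGraph A} (hF : F.Connected) :
    (F.induce Set.univ).Connected := by
  obtain ⟨a0⟩ := hF.nonempty
  rw [connected_iff_exists_forall_reachable]
  refine ⟨⟨a0, trivial⟩, ?_⟩
  rintro ⟨y, hy⟩
  let φ : F →g F.induce Set.univ := ⟨fun x => ⟨x, trivial⟩, fun {x y} h => h⟩
  exact (hF.preconnected a0 y).map φ

end Pool.Agent.Run7.h367.SP
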